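import Mathlib

/-! Values of the binary form that are products of two values of the polynomial. -/

set_option autoImplicit false

namespace Pool.Agent.P.MP_192724_nt.G

/-- completely multiplicative signs on the positive integers -/
structure CM (f : ℤ → ℤ) : Prop where
  mul : ∀ a a', 0 < a → 0 < a' → f (a * a') = f a * f a'
  sgn : ∀ a, 0 < a → f a = 1 ∨ f a = -1

variable {f : ℤ → ℤ} {a b c N₀ σ : ℤ}

theorem CM.self (hf : CM f) {n : ℤ} (hn : 0 < n) : f n * f n = 1 := by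
  rcases hf.sgn n hn with h | h <;> simp [h]

theorem CM.sq_mul (hf : CM f) {k n : ℤ} (hk : k ≠ 0) (hn : 0 < n) : f (k ^ 2 * n) = f n := by
  have h := abs_pos.2 hk
  rw [← sq_abs, sq, hf.mul _ _ (by positivity) hn, hf.mul _ _ h h, hf.self h, one_mul]

theorem CM.one (hf : CM f) : f 1 = 1 := by
  have := hf.mul 1 1 one_pos one_pos
  rwa [hf.self one_pos] at this

theorem lemA (hf : CM f) (ha : 0 < a)
    (H : ∀ n, N₀ ≤ n → 0 < a * n ^ 2 + b * n + c ∧ f (a * n ^ 2 + b * n + c) = σ)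
    {x m l : ℤ} (hm : 0 < m) (hx : IsCoprime (a * m) x) (hl : 0 < l)
    (hF : 0 < x ^ 2 + b * x * m + a * c * m ^ 2) (hd : l ∣ x ^ 2 + b * x * m + a * c * m ^ 2)
    (hc : a * m ∣ x - l) (hle : l ≤ x - a * m * N₀) :
    f (x ^ 2 + b * x * m + a * c * m ^ 2) = 1 := by
  obtain ⟨e, he⟩ := hd
  obtain ⟨v, hv⟩ := hc
  have am : 0 < a * m := by positivity
  have e0 : 0 < e := by rw [he] at hF; exact pos_of_mul_pos_right hF hl.le
  obtain ⟨w, hw⟩ : a * m ∣ e - x - b * m :=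
    hx.dvd_of_dvd_mul_left ⟨c * m + v * e, by linear_combination e * hv - he⟩
  have v0 : N₀ ≤ v := le_of_mul_le_mul_left (by linarith) am
  have w0 : N₀ ≤ w := by
    refine le_of_mul_le_mul_left ?_ am
    by_contra hc
    have h1 : e < x + b * m + a * m * N₀ := by linarith
    have h2 := mul_pos (mul_pos ha (pow_pos hm 2)) (H N₀ le_rfl).1
    have h3 : l * e ≤ (x - a * m * N₀) * (x + b * m + a * m * N₀) :=
      mul_le_mul hle h1.le e0.le (by linarith)
    nlinarith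
  have k1 : x * (w - v) = m * (a * v * w + b * v + c) := by
    refine mul_left_cancel₀ am.ne' ?_
    have hl' : l = x - a * m * v := by linarith
    have he' : e = x + b * m + a * m * w := by linarith
    rw [hl', he'] at he
    linear_combination -he
  have k2 : m ^ 2 * ((a * v ^ 2 + b * v + c) * (a * w ^ 2 + b * w + c)) =
      (w - v) ^ 2 * (x ^ 2 + b * x * m + a * c * m ^ 2) := by
    linear_combination (-(x * (w - v) + m * (a * v * w + b * v + c)) - b * m * (w - v)) * k1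
  obtain ⟨p1, q1⟩ := H v v0
  obtain ⟨p2, q2⟩ := H w w0
  have k3 : w - v ≠ 0 := fun h => by
    rw [h] at k2
    have := mul_pos (pow_pos hm 2) (mul_pos p1 p2)
    rw [k2] at this
    simp at this
  rw [← hf.sq_mul k3 hF, ← k2, hf.sq_mul hm.ne' (mul_pos p1 p2), hf.mul _ _ p1 p2, q2, ← q1,
    hf.self p1]

theorem lemA' (hf : CM f) (ha : 0 < a)
    (H : ∀ n, N₀ ≤ n → 0 < a * n ^ 2 + b * n + c ∧ f (a * n ^ 2 + b * n + c) = σ)
    {U m l : ℤ} (hm : 0 < m) (h2 : 2 * a ∣ m) (hx : IsCoprime U m) (hl : 0 < l)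
    (hF : 0 < U ^ 2 - (b ^ 2 - 4 * a * c) * m ^ 2) (hd : l ∣ U ^ 2 - (b ^ 2 - 4 * a * c) * m ^ 2)
    (hc : 2 * a * m ∣ l - (U - b * m)) (hle : l ≤ U - b * m - 2 * a * m * N₀) :
    f (U ^ 2 - (b ^ 2 - 4 * a * c) * m ^ 2) = 1 := by
  have e : U ^ 2 - (b ^ 2 - 4 * a * c) * m ^ 2 =
      (U - b * m) ^ 2 + b * (U - b * m) * (2 * m) + a * c * (2 * m) ^ 2 := by ring
  rw [e] at hF hd ⊢
  have h3 : IsCoprime m (U - b * m) := by
    have := hx.symm.add_mul_right_right (-b)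
    rwa [neg_mul, ← sub_eq_add_neg] at this
  refine lemA hf ha H (by linarith) ((h3.mul_left h3).of_isCoprime_of_dvd_left ?_) hl hF hd ?_
    (by linarith)
  · rw [← mul_assoc, mul_comm a]; exact mul_dvd_mul_right h2 m
  · rw [← mul_assoc, mul_comm a, ← neg_sub]; exact hc.neg_right

theorem jac_congr {D : ℤ} {n n' : ℕ} (hn : Odd n) (h : 4 * D ∣ (n : ℤ) - n') :
    jacobiSym D n = jacobiSym D n' := by
  have h1 : n' ≡ n [MOD 4 * D.natAbs] := by
    rw [Nat.modEq_iff_dvd]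
    push_cast
    rw [← abs_of_pos (show (0 : ℤ) < 4 by norm_num), ← abs_mul, abs_dvd]
    exact h
  have h2 : Odd n' := by
    have := h1.of_mul_right _
    unfold Nat.ModEq at this
    rw [Nat.odd_iff] at hn ⊢
    omega
  rw [jacobiSym.mod_right D hn, jacobiSym.mod_right D h2, h1]

theorem jac_of_dvd {D x y : ℤ} {n : ℕ} (h : (n : ℤ) ∣ x ^ 2 - D * y ^ 2) (hx : IsCoprime x n)
    (hy : IsCoprime y n) : jacobiSym D n = 1 := by
  have h1 : jacobiSym (D * y ^ 2) n = jacobiSym (x ^ 2) n :=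
    jacobiSym.mod_left' ((Int.modEq_iff_dvd.2 h) : _ ≡ _ [ZMOD n])
  rwa [jacobiSym.mul_left, jacobiSym.sq_one' (Int.isCoprime_iff_gcd_eq_one.1 hx),
    jacobiSym.sq_one' (Int.isCoprime_iff_gcd_eq_one.1 hy), mul_one] at h1

end Pool.Agent.P.MP_192724_nt.G
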