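import Pool.Agent.P.MP_192724_nt.G.Cl
import Pool.Agent.P.MP_192724_nt.H3.Center

/-! Bichromatic pairs of class vectors with bounded determinant are met by a small set. -/

set_option autoImplicit false

namespace Pool.Agent.P.MP_192724_nt.G

open Finset H3

variable {f : ℤ → ℤ} {D W K c R : ℤ} {p q : ℤ × ℤ}

theorem QF0 (c : ℤ) (p : ℤ × ℤ) : QF 0 c p = p.1 ^ 2 + c * p.2 ^ 2 := by simp [QF]

theorem XF0 (p : ℤ × ℤ) : XF 0 p = 2 * p.1 := by simp [XF]

theorem eq_of_det (hp : IsCoprime p.1 p.2) (hq : IsCoprime q.1 q.2) (p0 : 0 < p.1) (q0 : 0 < q.1)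
    (h : det p q = 0) : p = q := by
  unfold det at h
  have h1 : p.1 = q.1 := Int.dvd_antisymm p0.le q0.le
    (hp.dvd_of_dvd_mul_right ⟨q.2, by linarith⟩) (hq.dvd_of_dvd_mul_right ⟨p.2, by linarith⟩)
  rw [h1] at h
  exact Prod.ext h1 (mul_left_cancel₀ q0.ne' (by linarith))

theorem adm0 (h : Adm 0 c R p) : 0 < p.1 ∧ 2 * p.1 ≤ R ∧ 16 * (|c| * |p.2|) ≤ p.1 := by
  obtain ⟨h1, h2, h3⟩ := h
  rw [XF0] at h1 h2 h3
  rw [show 4 * c - 0 ^ 2 = 4 * c by ring, abs_mul, abs_of_pos (show (0 : ℤ) < 4 by norm_num)] at h3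
  exact ⟨by omega, h2, by linarith⟩

open Classical in
/-- the labels of bichromatic pairs -/
noncomputable def Lb (f : ℤ → ℤ) (D W c X M : ℤ) : Finset (ℤ × ℤ) :=
  (Icc 1 X ×ˢ Icc 1 M).filter fun x => ∃ (g : ℤ) (r : ℤ × ℤ), 0 < g ∧ Cl D W r ∧ x.1 = g * r.1 ∧
    x.2 = g * r.2 ∧ 0 < QF 0 c r ∧ f (QF 0 c r) = -1

theorem centers (hf : CM f) (P : Par D W K c) (hd : 4 * c - 0 ^ 2 ≠ 0) (R : ℕ) (hR : 1 ≤ R)
    {M : ℤ} (hM : M ≤ |c|) (Z : ℝ) (hZ : 0 < Z) :
    ∃ C : Finset (ℤ × ℤ), (C.card : ℝ) ≤ Z ^ 2 * (Lb f D W c (R ^ 2) M).card +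
        6 * (|4 * (c : ℝ) - (0 : ℤ) ^ 2| + 1) * R ^ 2 * (1 + Real.log R) ^ 2 / Z ∧
      ∀ p q, Adm 0 c R p → Adm 0 c R q → Cl D W p → Cl D W q → |det p q| ≤ M →
        p ∉ C → q ∉ C → f (QF 0 c p) = f (QF 0 c q) := by
  classical
  set V := (adm_finite 0 c R hd).toFinset.filter fun p => IsCoprime p.1 p.2 with hV
  have hVm : ∀ p, p ∈ V ↔ Adm 0 c R p ∧ IsCoprime p.1 p.2 := fun p => by
    simp [hV]
  set B := V.filter fun p => Z < tau (QF 0 c p) with hB
  set S := (Lb f D W c (R ^ 2) M).filter fun n => (tau (QF 0 c n) : ℝ) ≤ Z ^ 2 with hS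
  set G := S.biUnion fun n => V.filter fun p =>
    QF 0 c p ∣ QF 0 c n ∧ QF 0 c p ∣ n.2 * p.1 + n.1 * p.2 with hG
  have key : ∀ p q, Adm 0 c R p → Adm 0 c R q → Cl D W p → Cl D W q → 0 < det p q → det p q ≤ M →
      p ∉ G ∪ B → q ∉ G ∪ B → f (QF 0 c p) = f (QF 0 c q) := by
    intro p q hp hq cp cq h0 h1 np nq
    by_contra h2
    have hpV : p ∈ V := (hVm p).2 ⟨hp, cp.2.1⟩
    have hbp : ¬ Z < tau (QF 0 c p) := fun h => np (mem_union_right _ (mem_filter.2 ⟨hpV, h⟩))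
    have hbq : ¬ Z < tau (QF 0 c q) := fun h =>
      nq (mem_union_right _ (mem_filter.2 ⟨(hVm q).2 ⟨hq, cq.2.1⟩, h⟩))
    obtain ⟨a1, a2, a3⟩ := adm0 hp
    obtain ⟨b1, b2, b3⟩ := adm0 hq
    have c1 : 1 ≤ |c| := by omega
    have n1 : 16 * |c * p.2 * q.2| ≤ p.1 * q.1 := by
      rw [abs_mul, abs_mul, ← mul_assoc]
      exact mul_le_mul a3 (by nlinarith [abs_nonneg q.2]) (abs_nonneg _) a1.le
    have n2 := abs_le.1 (le_refl |c * p.2 * q.2|)
    have n3 := mul_pos a1 b1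
    have n4 := mul_le_mul a2 b2 (by omega) (by positivity)
    obtain ⟨g, r, g0, cr, r1, r2⟩ := cp.conj.mul P cq (by simp only; linarith)
    simp only at r1 r2
    have e1 : QF 0 c (p.1 * q.1 + c * p.2 * q.2, det p q) = QF 0 c p * QF 0 c q := by
      simp only [QF0, det]; ring
    have e2 : g ^ 2 * QF 0 c r = QF 0 c p * QF 0 c q := by
      rw [← e1]
      simp only [QF0, det]
      linear_combination -(p.1 * q.1 + c * p.2 * q.2 + g * r.1) * r1 -
        c * (p.1 * q.2 - p.2 * q.1 + g * r.2) * r2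
    have pp := hp.pos hd
    have pq := hq.pos hd
    have pr : 0 < QF 0 c r := pos_of_mul_pos_right (e2 ▸ mul_pos pp pq) (sq_nonneg g)
    refine np (mem_union_left _ (mem_biUnion.2 ⟨(p.1 * q.1 + c * p.2 * q.2, det p q),
      mem_filter.2 ⟨mem_filter.2 ⟨mem_product.2 ⟨mem_Icc.2 ⟨?_, ?_⟩, mem_Icc.2 ⟨h0, h1⟩⟩, g, r, g0,
        cr, by simp only; linarith, by simp only [det]; linarith, pr, ?_⟩, ?_⟩,
      mem_filter.2 ⟨hpV, e1 ▸ dvd_mul_right _ _, q.2, by simp only [QF0, det]; ring⟩⟩))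
    · simp only; omega
    · simp only; nlinarith
    · rw [← hf.sq_mul g0.ne' pr, e2, hf.mul _ _ pp pq]
      rcases hf.sgn _ pp with h | h <;> rcases hf.sgn _ pq with h' | h' <;> simp_all
    · rw [e1]
      have : (tau (QF 0 c p * QF 0 c q) : ℝ) ≤ tau (QF 0 c p) * tau (QF 0 c q) := by
        exact_mod_cast tau_mul_le _ _
      rw [sq]
      exact this.trans (mul_le_mul (not_lt.1 hbp) (not_lt.1 hbq) (by positivity) hZ.le)
  refine ⟨G ∪ B, ?_, fun p q hp hq cp cq h1 np nq => ?_⟩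
  · have hb : (B.card : ℝ) ≤
        6 * (|4 * (c : ℝ) - (0 : ℤ) ^ 2| + 1) * R ^ 2 * (1 + Real.log R) ^ 2 / Z := by
      rw [le_div_iff₀ hZ]
      refine le_trans ?_ (first_moment 0 c hd R hR B fun p hp => (hVm p).1 (mem_filter.1 hp).1)
      rw [← nsmul_eq_mul]
      exact card_nsmul_le_sum _ _ _ fun p hp => (mem_filter.1 hp).2.le
    have hg : (G.card : ℝ) ≤ Z ^ 2 * (Lb f D W c (R ^ 2) M).card := by
      have h1 : (G.card : ℝ) ≤ ∑ n ∈ S, ((V.filter fun p =>
          QF 0 c p ∣ QF 0 c n ∧ QF 0 c p ∣ n.2 * p.1 + n.1 * p.2).card : ℝ) := by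
        exact_mod_cast card_biUnion_le
      refine h1.trans ((sum_le_card_nsmul _ _ (Z ^ 2) fun n hn => ?_).trans ?_)
      · refine le_trans ?_ (mem_filter.1 hn).2
        obtain ⟨m1, g, r, g0, -, r1, r2, r3, -⟩ := mem_filter.1 (mem_filter.1 hn).1
        obtain ⟨m2, m3⟩ := mem_Icc.1 (mem_product.1 m1).2
        have hpos : 0 < QF 0 c n := by
          have : QF 0 c n = g ^ 2 * QF 0 c r := by simp only [QF0, r1, r2]; ring
          rw [this]; positivity
        unfold tau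
        refine Nat.cast_le.2 (card_le_card_of_injOn (fun p => (QF 0 c p).natAbs) (fun p hp => ?_)
          fun p hp q hq h => ?_)
        · exact mem_coe.2 (Nat.mem_divisors.2
            ⟨Int.natAbs_dvd_natAbs.2 (mem_filter.1 (mem_coe.1 hp)).2.1, by omega⟩)
        · obtain ⟨hp1, -, hp3⟩ := mem_filter.1 (mem_coe.1 hp)
          obtain ⟨hq1, -, hq3⟩ := mem_filter.1 (mem_coe.1 hq)
          obtain ⟨ap, cp⟩ := (hVm p).1 hp1
          obtain ⟨aq, cq⟩ := (hVm q).1 hq1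
          have pp := ap.pos hd
          have pq := aq.pos hd
          have e : QF 0 c q = QF 0 c p := by simp only at h; omega
          have t1 := (ap.bounds hd).1
          have t2 := (aq.bounds hd).1
          rw [e] at hq3 t2
          rw [XF0] at t1 t2
          obtain ⟨a1, -, a3⟩ := adm0 ap
          obtain ⟨b1, -, b3⟩ := adm0 aq
          have d1 : QF 0 c p ∣ n.2 * det p q := (dvd_sub (hp3.mul_right q.2)
            (hq3.mul_right p.2)).trans (dvd_of_eq (by unfold det; ring))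
          have d2 : |det p q| ≤ p.1 * |q.2| + q.1 * |p.2| := by
            refine (abs_sub _ _).trans (le_of_eq ?_)
            rw [abs_mul, abs_mul, abs_of_pos a1, abs_of_pos b1]
          have d3 : |n.2 * det p q| < QF 0 c p := by
            rw [abs_mul, abs_of_pos (show 0 < n.2 by omega)]
            have d4 := mul_le_mul (m3.trans hM) d2 (abs_nonneg _) (abs_nonneg _)
            have d5 := mul_le_mul_of_nonneg_left a3 b1.le
            have d6 := mul_le_mul_of_nonneg_left b3 a1.le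
            nlinarith [sq_nonneg (p.1 - q.1)]
          exact eq_of_det cp cq a1 b1 ((mul_eq_zero.1 (Int.eq_zero_of_abs_lt_dvd d1 d3)).resolve_left
            (by omega))
      · rw [nsmul_eq_mul, mul_comm]
        exact mul_le_mul_of_nonneg_left (Nat.cast_le.2 (card_filter_le _ _)) (by positivity)
    have : ((G ∪ B).card : ℝ) ≤ G.card + B.card := by exact_mod_cast card_union_le _ _
    linarith
  · have e : det q p = -det p q := by unfold det; ring
    rw [abs_le] at h1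
    rcases lt_trichotomy (det p q) 0 with h | h | h
    · exact (key q p hq hp cq cp (by omega) (by omega) nq np).symm
    · rw [eq_of_det cp.2.1 cq.2.1 cp.1 cq.1 h]
    · exact key p q hp hq cp cq h h1.2 np nq

end Pool.Agent.P.MP_192724_nt.G
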