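import Pool.Agent.P.MP_192724_nt.G.A
import Pool.Agent.P.MP_192724_nt.H3.Sail

/-! The class of admissible vectors and the descent along the Farey tree. -/

set_option autoImplicit false

namespace Pool.Agent.P.MP_192724_nt.G

open Finset Filter H3

/-- class vectors -/
def Cl (D W : ℤ) (p : ℤ × ℤ) : Prop :=
  0 < p.1 ∧ IsCoprime p.1 p.2 ∧ W ∣ p.2 ∧ jacobiSym D p.1.natAbs = 1

/-- the standing parameters -/
structure Par (D W K c : ℤ) : Prop where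
  hc : c = -D * K ^ 2
  hW : 4 * D ∣ W
  hK : ∃ e : ℕ, K ∣ W ^ e
  W0 : 0 < W

/-- combinations of two vectors -/
def cmb (α β : ℤ) (p q : ℤ × ℤ) : ℤ × ℤ := (α * p.1 + β * q.1, α * p.2 + β * q.2)

variable {D W K c : ℤ} {p q : ℤ × ℤ}

theorem Cl.conj (h : Cl D W p) : Cl D W (p.1, -p.2) :=
  ⟨h.1, h.2.1.neg_right, h.2.2.1.neg_right, h.2.2.2⟩

theorem Cl.cW (h : Cl D W p) : IsCoprime p.1 W := h.2.1.of_isCoprime_of_dvd_right h.2.2.1

theorem Cl.cK (P : Par D W K c) (h : Cl D W p) : IsCoprime p.1 (K * p.2) := by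
  obtain ⟨e, he⟩ := P.hK
  exact (h.cW.pow_right.of_isCoprime_of_dvd_right he).mul_right h.2.1

theorem jac_dvd {x y n : ℤ} (h1 : IsCoprime x y) (h2 : IsCoprime x D) (hn : n ∣ x ^ 2 - D * y ^ 2) :
    jacobiSym D n.natAbs = 1 := by
  rw [← Int.natAbs_dvd] at hn
  refine jac_of_dvd hn (IsCoprime.of_isCoprime_of_dvd_right ?_ hn)
    (IsCoprime.of_isCoprime_of_dvd_right ?_ hn)
  · have := (h2.mul_right (h1.pow_right (n := 2))).neg_right.mul_add_left_right x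
    rwa [← sq, ← sub_eq_add_neg] at this
  · have := (h1.symm.pow_right (n := 2)).add_mul_left_right (-D * y)
    rwa [show x ^ 2 + y * (-D * y) = x ^ 2 - D * y ^ 2 by ring] at this

theorem Cl.jac (P : Par D W K c) (h : Cl D W p) {n : ℤ} (hn : n ∣ p.1 ^ 2 + c * p.2 ^ 2) :
    jacobiSym D n.natAbs = 1 :=
  jac_dvd (h.cK P) (h.cW.of_isCoprime_of_dvd_right ((dvd_mul_left D 4).trans P.hW))
    (hn.trans (dvd_of_eq (by rw [P.hc]; ring)))

theorem odd_of_cW (hW : 4 * D ∣ W) {x : ℤ} (h : IsCoprime x W) : Odd x.natAbs := by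
  rw [← Nat.not_even_iff_odd, even_iff_two_dvd]
  intro hc
  have := h.isUnit_of_dvd' (show (2 : ℤ) ∣ x from Int.natCast_dvd.2 hc)
    ((Dvd.intro (2 * D) (by ring)).trans hW)
  exact absurd (Int.isUnit_iff.1 this) (by norm_num)

theorem jac_cW (hW : 4 * D ∣ W) {x y : ℤ} (hx : 0 < x) (hy : 0 < y) (h : IsCoprime x W)
    (h' : W ∣ x - y) : jacobiSym D x.natAbs = jacobiSym D y.natAbs :=
  jac_congr (odd_of_cW hW h) (by
    rw [Int.natAbs_of_nonneg hx.le, Int.natAbs_of_nonneg hy.le]; exact hW.trans h')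

theorem jac_mul {x y : ℤ} (hx : 0 < x) (hy : 0 < y) :
    jacobiSym D (x * y).natAbs = jacobiSym D x.natAbs * jacobiSym D y.natAbs := by
  rw [Int.natAbs_mul, jacobiSym.mul_right' _ (by omega) (by omega)]

theorem Cl.mul (P : Par D W K c) (hp : Cl D W p) (hq : Cl D W q)
    (h : 0 < p.1 * q.1 - c * p.2 * q.2) : ∃ (g : ℤ) (r : ℤ × ℤ), 0 < g ∧ Cl D W r ∧
      p.1 * q.1 - c * p.2 * q.2 = g * r.1 ∧ p.1 * q.2 + p.2 * q.1 = g * r.2 := by
  obtain ⟨g, x, y, g0, h1, h2, h3⟩ := Int.exists_gcd_one'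
    (Int.gcd_pos_of_ne_zero_left (p.1 * q.2 + p.2 * q.1) h.ne')
  have g1 : (0 : ℤ) < g := by exact_mod_cast g0
  have x0 : 0 < x := by rw [h2] at h; exact pos_of_mul_pos_left h g1.le
  have h4 : W ∣ p.1 * q.1 - c * p.2 * q.2 - p.1 * q.1 :=
    (hq.2.2.1.mul_left (-c * p.2)).trans (dvd_of_eq (by ring))
  have h5 : IsCoprime (p.1 * q.1 - c * p.2 * q.2) W := by
    obtain ⟨k, hk⟩ := h4
    have := (hp.cW.mul_left hq.cW).add_mul_left_left k
    rwa [← hk, add_sub_cancel] at this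
  have h6 := jac_cW P.hW h (mul_pos hp.1 hq.1) h5 h4
  rw [jac_mul hp.1 hq.1, hp.2.2.2, hq.2.2.2, h2, jac_mul x0 g1] at h6
  obtain ⟨g₁, g₂, a1, a2, a3⟩ := exists_dvd_and_dvd_of_dvd_mul
    (show (g : ℤ) ∣ (p.1 ^ 2 + c * p.2 ^ 2) * (q.1 ^ 2 + c * q.2 ^ 2) from
      ⟨g * (x ^ 2 + c * y ^ 2), by
        linear_combination (p.1 * q.1 - c * p.2 * q.2 + x * g) * h2 +
          c * (p.1 * q.2 + p.2 * q.1 + y * g) * h3⟩)
  have h7 : jacobiSym D (g : ℤ).natAbs = 1 := by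
    have : g₁ * g₂ ≠ 0 := a3 ▸ g1.ne'
    rw [a3, Int.natAbs_mul, jacobiSym.mul_right' _ (by simpa using left_ne_zero_of_mul this)
      (by simpa using right_ne_zero_of_mul this), hp.jac P a1, hq.jac P a2, one_mul]
  refine ⟨g, (x, y), g1, ⟨x0, Int.isCoprime_iff_gcd_eq_one.2 h1, ?_, by rwa [h7, mul_one, mul_one] at h6⟩,
    by rw [h2, mul_comm], by rw [h3, mul_comm]⟩
  rw [h2] at h5
  refine h5.of_mul_left_right.symm.dvd_of_dvd_mul_right ?_
  rw [← h3]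
  exact dvd_add (hq.2.2.1.mul_left _) (hp.2.2.1.mul_right _)

theorem lift (W0 : 0 < W) {a b : ℤ} (h : IsCoprime a b) : ∃ α β : ℤ, 0 ≤ α ∧ 0 ≤ β ∧
    IsCoprime α β ∧ W ∣ α - a ∧ W ∣ β - b := by
  by_cases hab : a = b
  · subst hab
    rcases Int.isUnit_iff.1 (isCoprime_self.1 h) with rfl | rfl
    · exact ⟨1, 1, by omega, by omega, h, by simp, by simp⟩
    · exact ⟨W - 1, 2 * W - 1, by omega, by omega, ⟨-2, 1, by ring⟩, ⟨1, by ring⟩, ⟨2, by ring⟩⟩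
  obtain ⟨u, v, huv⟩ := h
  set n := (a - b) ^ 2 * (|a| + |b|) with hn
  have h1 : 1 ≤ W * (a - b) ^ 2 := mul_pos W0 (sq_pos_of_ne_zero (sub_ne_zero.2 hab))
  have h2 : |a| + |b| ≤ W * n := by
    rw [hn, ← mul_assoc]
    exact le_mul_of_one_le_left (by positivity) h1
  have h3 : IsCoprime (1 + W * n * (u + v)) (W * n) := ⟨1, -(u + v), by ring⟩
  obtain ⟨s, t, hst⟩ : IsCoprime (1 + W * n * (u + v)) (W * n * (a - b)) :=
    h3.mul_right (h3.of_isCoprime_of_dvd_right ⟨W * (a - b) * (|a| + |b|), by rw [hn]; ring⟩)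
  exact ⟨a + W * n, b + W * n, by linarith [neg_abs_le a, abs_nonneg b],
    by linarith [neg_abs_le b, abs_nonneg a], ⟨s * u - t * b, s * v + t * a, by
      linear_combination hst + s * huv⟩, ⟨n, by ring⟩, ⟨n, by ring⟩⟩

theorem exists_B (W0 : 0 < W) (hW : 4 * D ∣ W) : ∃ B : ℤ, 1 ≤ B ∧ ∀ p q : ℤ × ℤ, det p q = 1 →
    0 < p.1 → 0 < q.1 → ∃ α β, 0 ≤ α ∧ α ≤ B ∧ 0 ≤ β ∧ β ≤ B ∧ Cl D W (cmb α β p q) := by
  have h1 : ∀ᶠ B : ℤ in atTop, ∀ x ∈ Ico 0 W ×ˢ Ico 0 W, ∀ a b, IsCoprime a b → W ∣ a - x.1 →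
      W ∣ b - x.2 → ∃ α β : ℤ, 0 ≤ α ∧ α ≤ B ∧ 0 ≤ β ∧ β ≤ B ∧ IsCoprime α β ∧
        W ∣ α - x.1 ∧ W ∣ β - x.2 := (eventually_all_finset _).2 fun x _ => by
    by_cases h : ∃ a b, IsCoprime a b ∧ W ∣ a - x.1 ∧ W ∣ b - x.2
    · obtain ⟨a, b, a1, a2, a3⟩ := h
      obtain ⟨α, β, b1, b2, b3, b4, b5⟩ := lift W0 a1
      filter_upwards [eventually_ge_atTop α, eventually_ge_atTop β] with B c1 c2 _ _ _ _ _
      exact ⟨α, β, b1, c1, b2, c2, b3, by simpa using dvd_add b4 a2, by simpa using dvd_add b5 a3⟩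
    · exact Eventually.of_forall fun B a b a1 a2 a3 => absurd ⟨a, b, a1, a2, a3⟩ h
  obtain ⟨B, B1, hB⟩ := ((eventually_ge_atTop 1).and h1).exists
  refine ⟨B, B1, fun p q h p0 q0 => ?_⟩
  unfold det at h
  have m1 := Int.dvd_self_sub_emod (x := q.2) (m := W)
  have m2 := Int.dvd_self_sub_emod (x := -p.2) (m := W)
  obtain ⟨α, β, b1, b2, b3, b4, ⟨u, v, huv⟩, b6, b7⟩ := hB (q.2 % W, -p.2 % W)
    (mem_product.2 ⟨mem_Ico.2 ⟨Int.emod_nonneg _ W0.ne', Int.emod_lt_of_pos _ W0⟩,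
      mem_Ico.2 ⟨Int.emod_nonneg _ W0.ne', Int.emod_lt_of_pos _ W0⟩⟩) q.2 (-p.2)
    ⟨p.1, q.1, by linarith⟩ m1 m2
  obtain ⟨k, hk⟩ := dvd_sub b6 m1
  obtain ⟨l, hl⟩ := dvd_sub b7 m2
  have x0 : 0 < α * p.1 + β * q.1 := by
    rcases b1.eq_or_lt with rfl | h1
    · rcases b3.eq_or_lt with rfl | h2
      · simp at huv
      · positivity
    · positivity
  have x1 : α * p.1 + β * q.1 - 1 = W * (k * p.1 + l * q.1) := by
    linear_combination p.1 * hk + q.1 * hl + h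
  refine ⟨α, β, b1, b2, b3, b4, x0, ⟨u * q.2 - v * p.2, v * p.1 - u * q.1, ?_⟩,
    ⟨k * p.2 + l * q.2, ?_⟩, ?_⟩
  · simp only [cmb]; linear_combination huv + (u * α + v * β) * h
  · simp only [cmb]; linear_combination p.2 * hk + q.2 * hl
  · exact (jac_cW hW x0 one_pos ⟨1, -(k * p.1 + l * q.1), by linarith⟩ ⟨_, x1⟩).trans (by simp)

theorem tree {B R R' : ℤ} (col : ℤ × ℤ → ℤ) (Cone : ℤ × ℤ → Prop) (B1 : 1 ≤ B)
    (hB : ∀ p q : ℤ × ℤ, det p q = 1 → 0 < p.1 → 0 < q.1 →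
      ∃ α β, 0 ≤ α ∧ α ≤ B ∧ 0 ≤ β ∧ β ≤ B ∧ Cl D W (cmb α β p q))
    (hC : ∀ p q α β, Cone p → Cone q → 0 ≤ α → 0 ≤ β → Cone (cmb α β p q))
    (NB : ∀ r r', Cl D W r → Cl D W r' → Cone r → Cone r' → r.1 ≤ R → r'.1 ≤ R →
      |det r r'| ≤ 2 * B ^ 2 → col r = col r') (hR : 2 * B * R' ≤ R) (n : ℕ) :
    ∀ (p q : ℤ × ℤ) (i j α β : ℤ), i + j ≤ n → 0 ≤ i → 0 ≤ j → det p q = 1 → Cone p → Cone q →
      0 < p.1 → 0 < q.1 → p.1 ≤ R' → q.1 ≤ R' → Cl D W (cmb i j p q) → (cmb i j p q).1 ≤ R' →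
      0 ≤ α → α ≤ B → 0 ≤ β → β ≤ B → Cl D W (cmb α β p q) →
      col (cmb i j p q) = col (cmb α β p q) := by
  have ht : ∀ (p q : ℤ × ℤ) (α β : ℤ), 0 < p.1 → 0 < q.1 → p.1 ≤ R' → q.1 ≤ R' → α ≤ B → β ≤ B →
      (cmb α β p q).1 ≤ R := fun p q α β a1 a2 a3 a4 a5 a6 => by
    have := mul_le_mul a5 a3 a1.le (by linarith)
    have := mul_le_mul a6 a4 a2.le (by linarith)
    simp only [cmb]; linarith
  have hd : ∀ (p q : ℤ × ℤ) (i j α β : ℤ), det p q = 1 →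
      det (cmb i j p q) (cmb α β p q) = i * β - j * α := fun p q i j α β h => by
    simp only [cmb, det] at h ⊢; linear_combination (i * β - j * α) * h
  have hu : ∀ (p q : ℤ × ℤ) (i j : ℤ), Cl D W (cmb i j p q) → IsCoprime i j := fun p q i j h => by
    obtain ⟨u, v, huv⟩ := h.2.1
    exact ⟨u * p.1 + v * p.2, u * q.1 + v * q.2, by simp only [cmb] at huv; linear_combination huv⟩
  induction n with
  | zero =>
    intro p q i j α β h1 h2 h3 _ _ _ _ _ _ _ h4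
    obtain ⟨u, v, huv⟩ := hu p q i j h4
    rw [show i = 0 by omega, show j = 0 by omega] at huv
    simp at huv
  | succ n ih =>
    intro p q i j α β h1 i0 j0 h cp cq p0 q0 p1 q1 c1 c2 a1 a2 a3 a4 c3
    by_cases hs : i ≤ B ∧ j ≤ B
    · refine NB _ _ c1 c3 (hC _ _ _ _ cp cq i0 j0) (hC _ _ _ _ cp cq a1 a3)
        (ht _ _ _ _ p0 q0 p1 q1 hs.1 hs.2) (ht _ _ _ _ p0 q0 p1 q1 a2 a4) ?_
      rw [hd _ _ _ _ _ _ h, abs_le]
      have := mul_le_mul hs.1 a4 a3 (by linarith)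
      have := mul_le_mul hs.2 a2 a1 (by linarith)
      constructor <;> nlinarith [mul_nonneg i0 a3, mul_nonneg j0 a1]
    have c4 := hu p q i j c1
    have i1 : 1 ≤ i := by
      by_contra hc
      rw [show i = 0 by omega, isCoprime_zero_left, Int.isUnit_iff] at c4
      omega
    have j1 : 1 ≤ j := by
      by_contra hc
      rw [show j = 0 by omega, isCoprime_zero_right, Int.isUnit_iff] at c4
      omega
    have cr := hC p q 1 1 cp cq zero_le_one zero_le_one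
    have r0 : 0 < (cmb 1 1 p q).1 := by simp only [cmb]; linarith
    have r1 : (cmb 1 1 p q).1 ≤ R' := by
      refine le_trans ?_ c2
      simp only [cmb]; nlinarith
    rcases le_total j i with hij | hij
    · have d1 : det p (cmb 1 1 p q) = 1 := by simp only [cmb, det] at h ⊢; linarith
      obtain ⟨α', β', b1, b2, b3, b4, b5⟩ := hB _ _ d1 p0 r0
      have e : ∀ x y : ℤ, cmb x y p (cmb 1 1 p q) = cmb (x + y) y p q := fun x y => by
        simp only [cmb]; ext <;> simp only <;> ring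
      have k := ih p (cmb 1 1 p q) (i - j) j α' β' (by omega) (by omega) j0 d1 cp cr p0 r0 p1 r1
        (by rwa [e, sub_add_cancel]) (by rwa [e, sub_add_cancel]) b1 b2 b3 b4 b5
      rw [e, sub_add_cancel] at k
      refine k.trans (NB _ _ b5 c3 (hC _ _ _ _ cp cr b1 b3) (hC _ _ _ _ cp cq a1 a3)
        (ht _ _ _ _ p0 r0 p1 r1 b2 b4) (ht _ _ _ _ p0 q0 p1 q1 a2 a4) ?_)
      rw [e, hd _ _ _ _ _ _ h, abs_le]
      have := mul_le_mul (add_le_add b2 b4) a4 a3 (by linarith)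
      have := mul_le_mul b4 a2 a1 (by linarith)
      constructor <;> nlinarith [mul_nonneg (add_nonneg b1 b3) a3, mul_nonneg b3 a1]
    · have d1 : det (cmb 1 1 p q) q = 1 := by simp only [cmb, det] at h ⊢; linarith
      obtain ⟨α', β', b1, b2, b3, b4, b5⟩ := hB _ _ d1 r0 q0
      have e : ∀ x y : ℤ, cmb x y (cmb 1 1 p q) q = cmb x (y + x) p q := fun x y => by
        simp only [cmb]; ext <;> simp only <;> ring
      have k := ih (cmb 1 1 p q) q i (j - i) α' β' (by omega) i0 (by omega) d1 cr cq r0 q0 r1 q1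
        (by rwa [e, sub_add_cancel]) (by rwa [e, sub_add_cancel]) b1 b2 b3 b4 b5
      rw [e, sub_add_cancel] at k
      refine k.trans (NB _ _ b5 c3 (hC _ _ _ _ cr cq b1 b3) (hC _ _ _ _ cp cq a1 a3)
        (ht _ _ _ _ r0 q0 r1 q1 b2 b4) (ht _ _ _ _ p0 q0 p1 q1 a2 a4) ?_)
      rw [e, hd _ _ _ _ _ _ h, abs_le]
      have := mul_le_mul b2 a4 a3 (by linarith)
      have := mul_le_mul (add_le_add b4 b2) a2 a1 (by linarith)
      constructor <;> nlinarith [mul_nonneg (add_nonneg b3 b1) a1, mul_nonneg b1 a3]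

end Pool.Agent.P.MP_192724_nt.G
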