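import Pool.Agent.P.MP_192724_nt.G.Cen
import Pool.Agent.P.MP_192724_nt.H3.Core

/-! Local constancy of the colour of class vectors, and the sign function on angles. -/

set_option autoImplicit false

namespace Pool.Agent.P.MP_192724_nt.G

open Finset MeasureTheory Metric H3

variable {f : ℤ → ℤ} {D W K b c B : ℤ} {φ : ℝ → ℝ} {C V : Finset (ℤ × ℤ)}

theorem edge (hd : 4 * c - b ^ 2 ≠ 0) (hφ : Ang (4 * (c : ℝ) - b ^ 2) φ) {L ρ q0 t : ℝ} {N : ℤ}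
    (hρ : 2 ≤ ρ) (hN : 8 * ρ ≤ N) (hq : 0 < q0) (hL : 2 / (q0 * ρ) ≤ L) (ht : |t| ≤ tw b c / 4)
    (hB0 : φ t ∉ Bad φ b C L ρ q0) : ∃ p q : ℤ × ℤ, det p q = 1 ∧ 1 ≤ XF b p ∧ XF b p ≤ N ∧
      1 ≤ XF b q ∧ XF b q ≤ N ∧ H3.slope b p ≤ t ∧ t ≤ H3.slope b q ∧ H3.slope b q - H3.slope b p ≤ L / 2 := by
  have t1 := tw_le hd
  have hρ0 : 0 < ρ := by linarith
  have hN' : 16 ≤ N := by exact_mod_cast (show (16 : ℝ) ≤ N by linarith)
  obtain ⟨p, q, e1, a1, a2, a3, a4, a5, a6, a7⟩ := farey b t (by linarith) N (by omega)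
  have hXp : (1 : ℝ) ≤ XF b p := by exact_mod_cast a1
  have hXq : (1 : ℝ) ≤ XF b q := by exact_mod_cast a3
  have e2 : (XF b p : ℝ) * q.2 - XF b q * p.2 = 2 := by
    have : XF b p * q.2 - XF b q * p.2 = 2 := by
      unfold det at e1; unfold XF; linear_combination 2 * e1
    exact_mod_cast this
  have sp : H3.slope b p ≤ t := by unfold H3.slope; rwa [div_le_iff₀ (by linarith)]
  have sq : t ≤ H3.slope b q := by unfold H3.slope; rwa [le_div_iff₀ (by linarith)]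
  have e3 : H3.slope b q - H3.slope b p = 2 / (XF b p * XF b q) := by
    unfold H3.slope; rw [← e2]; field_simp
  have small : ∀ r : ℤ × ℤ, 1 ≤ XF b r → |H3.slope b r - t| ≤ 1 / (2 * XF b r * ρ) → q0 < XF b r := by
    intro r hr h2
    by_contra hc
    obtain ⟨k, hk⟩ := Int.eq_ofNat_of_zero_le (show 0 ≤ XF b r by omega)
    have hk1 : (1 : ℝ) ≤ k := by rw [hk] at hr; exact_mod_cast hr
    have hs : H3.slope b r = (r.2 : ℝ) / k := by unfold H3.slope; rw [hk]; norm_cast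
    rw [hk] at hc h2
    push_cast at hc h2
    refine hB0 (Or.inr (Set.mem_biUnion (x := k)
      (mem_coe.2 (mem_Icc.2 ⟨by exact_mod_cast hk1, Nat.le_floor (not_lt.1 hc)⟩))
      (Set.mem_biUnion (x := r.2) (mem_coe.2 (mem_Icc.2 (abs_le.1 ?_))) ?_)))
    · have h4 : 1 / (2 * k * ρ) ≤ 1 / 2 := one_div_le_one_div_of_le (by norm_num) (by nlinarith)
      have h5 : |(r.2 : ℝ) / k| ≤ 1 := by
        have := abs_add_le (H3.slope b r - t) t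
        rw [sub_add_cancel, hs] at this
        rw [hs] at h2
        linarith
      rw [abs_div, abs_of_pos (show (0 : ℝ) < k by linarith), div_le_one (by linarith)] at h5
      exact_mod_cast h5
    · rw [mem_closedBall, Real.dist_eq, abs_sub_comm, ← hs]
      have h6 := (hφ.abs_le t (H3.slope b r)).2
      have h7 : 2 * (1 / (2 * k * ρ)) ≤ 2 / (k * ρ) := by
        rw [mul_one_div]
        exact div_le_div_of_nonneg_left (by norm_num) (by positivity) (by nlinarith)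
      linarith
  refine ⟨p, q, e1, a1, a2, a3, a4, sp, sq, ?_⟩
  have h8 : (N : ℝ) ≤ XF b p + XF b q := by exact_mod_cast a5.le
  have h9 : ∀ x y : ℝ, 1 ≤ x → 4 * ρ ≤ y → 2 / (x * y) ≤ 1 / (2 * x * ρ) := by
    intro x y hx hy
    rw [div_le_div_iff₀ (by nlinarith) (by positivity)]
    nlinarith
  have h10 : ∀ x : ℝ, q0 < x → 1 / (2 * x * ρ) ≤ L / 2 := by
    intro x hx
    have : 1 / (2 * x * ρ) ≤ 1 / (q0 * ρ) := one_div_le_one_div_of_le (by positivity) (by nlinarith)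
    have h7 : 2 / (q0 * ρ) = 2 * (1 / (q0 * ρ)) := by ring
    linarith
  rcases le_total (XF b p : ℝ) (XF b q) with h | h
  · have := h9 _ _ hXp (show 4 * ρ ≤ XF b q by linarith)
    rw [← e3] at this
    exact this.trans (h10 _ (small p a1 (abs_le.2 ⟨by linarith, by linarith⟩)))
  · have := h9 _ _ hXq (show 4 * ρ ≤ XF b p by linarith)
    rw [mul_comm, ← e3] at this
    exact this.trans (h10 _ (small q a3 (abs_le.2 ⟨by linarith, by linarith⟩)))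

theorem slope_le {p r : ℤ × ℤ} (p0 : 0 < p.1) (r0 : 0 < r.1) :
    H3.slope 0 p ≤ H3.slope 0 r ↔ 0 ≤ det p r := by
  have a1 : (0 : ℝ) < p.1 := by exact_mod_cast p0
  have a2 : (0 : ℝ) < r.1 := by exact_mod_cast r0
  unfold H3.slope det
  rw [XF0, XF0, div_le_div_iff₀ (by push_cast; positivity) (by push_cast; positivity),
    ← Int.cast_mul, ← Int.cast_mul, Int.cast_le]
  constructor <;> intro h <;> linarith

theorem cone_cmb {p₀ q₀ p q : ℤ × ℤ} {α β : ℤ} (hp : 0 ≤ det p₀ p ∧ 0 ≤ det p q₀)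
    (hq : 0 ≤ det p₀ q ∧ 0 ≤ det q q₀) (ha : 0 ≤ α) (hb : 0 ≤ β) :
    0 ≤ det p₀ (cmb α β p q) ∧ 0 ≤ det (cmb α β p q) q₀ := by
  have a1 := add_nonneg (mul_nonneg ha hp.1) (mul_nonneg hb hq.1)
  have a2 := add_nonneg (mul_nonneg ha hp.2) (mul_nonneg hb hq.2)
  simp only [det, cmb] at a1 a2 ⊢
  constructor <;> linarith

theorem same (hd : 4 * c - 0 ^ 2 ≠ 0) (hφ : Ang (4 * (c : ℝ) - (0 : ℤ) ^ 2) φ) (B1 : 1 ≤ B)
    (hB : ∀ p q : ℤ × ℤ, det p q = 1 → 0 < p.1 → 0 < q.1 →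
      ∃ α β, 0 ≤ α ∧ α ≤ B ∧ 0 ≤ β ∧ β ≤ B ∧ Cl D W (cmb α β p q)) {R R' N : ℤ}
    (hC : ∀ p q, Adm 0 c R p → Adm 0 c R q → Cl D W p → Cl D W q → |det p q| ≤ 2 * B ^ 2 →
      p ∉ C → q ∉ C → f (QF 0 c p) = f (QF 0 c q)) (hV : ∀ p, Adm 0 c N p → p ∈ V)
    {L₀ ρ₀ q₀ L ρ q₁ θ : ℝ} (hρ : 2 ≤ ρ₀) (hN : 8 * ρ₀ ≤ N) (hq : 0 < q₀) (hL : 2 / (q₀ * ρ₀) ≤ L₀)
    (hL' : L₀ ≤ tw 0 c / 2) (hR : 4 * B * R' ≤ R) (hR' : N ≤ R') (hθ : |θ| ≤ tw 0 c / 8)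
    (h0 : θ ∉ Bad φ 0 C L₀ ρ₀ q₀) (h1 : θ ∉ Bad φ 0 V L ρ q₁) : ∃ e, ∀ x : ℤ × ℤ, Cl D W x →
      x.1 ≤ R' → |φ (H3.slope 0 x) - θ| ≤ 2 * L → f (QF 0 c x) = e := by
  have t0 := tw_pos hd
  obtain ⟨t, ht, rfl⟩ := surj' hφ (τ := tw 0 c / 4) (θ := θ) (by linarith)
  obtain ⟨p, q, e1, a1, a2, a3, a4, a5, a6, a7⟩ := edge hd hφ hρ hN hq hL ht h0
  have L0 : 0 ≤ L₀ := by linarith
  have ad : ∀ (r : ℤ × ℤ) (T : ℤ), 1 ≤ XF 0 r → XF 0 r ≤ T → H3.slope 0 p ≤ H3.slope 0 r →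
      H3.slope 0 r ≤ H3.slope 0 q → Adm 0 c T r := fun r T b1 b2 b3 b4 =>
    (adm_iff hd T r).2 ⟨b1, b2, by
      rw [abs_le] at ht ⊢
      constructor <;> linarith⟩
  have far : ∀ r, r ∈ V → 2 * L < |φ t - φ (H3.slope 0 r)| := fun r hr => by
    by_contra hc
    exact h1 (Or.inl (Set.mem_biUnion (mem_coe.2 hr) (by
      rw [mem_closedBall, Real.dist_eq]; exact not_lt.1 hc)))
  have f1 := far p (hV p (ad p N a1 a2 le_rfl (a5.trans a6)))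
  have f2 := far q (hV q (ad q N a3 a4 (a5.trans a6) le_rfl))
  rw [abs_of_nonneg (sub_nonneg.2 (hφ.mono a5))] at f1
  rw [abs_of_nonpos (sub_nonpos.2 (hφ.mono a6))] at f2
  rw [XF0] at a1 a2 a3 a4
  have p0 : 0 < p.1 := by omega
  have q0 : 0 < q.1 := by omega
  obtain ⟨α, β, b1, b2, b3, b4, b5⟩ := hB p q e1 p0 q0
  refine ⟨f (QF 0 c (cmb α β p q)), fun x x1 x2 x3 => ?_⟩
  rw [abs_le] at x3
  have g1 := (slope_le p0 x1.1).1 (hφ.mono.reflect_lt (by linarith)).le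
  have g2 := (slope_le x1.1 q0).1 (hφ.mono.reflect_lt (by linarith)).le
  have e : cmb (det x q) (det p x) p q = x := by
    simp only [cmb, det] at e1 ⊢
    ext
    · simp only; linear_combination x.1 * e1
    · simp only; linear_combination x.2 * e1
  have in1 : ∀ r, Cl D W r → 0 ≤ det p r ∧ 0 ≤ det r q → r.1 ≤ 2 * B * R' → Adm 0 c R r ∧ r ∉ C := by
    intro r r1 r2 r3
    have r0 := r1.1
    have c1 := (slope_le p0 r0).2 r2.1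
    have c2 := (slope_le r0 q0).2 r2.2
    refine ⟨ad r R (by rw [XF0]; omega) (by rw [XF0]; linarith) c1 c2, fun hr =>
      h0 (Or.inl (Set.mem_biUnion (mem_coe.2 hr) ?_))⟩
    rw [mem_closedBall, Real.dist_eq, abs_sub_comm]
    have : |H3.slope 0 r - t| ≤ L₀ / 2 := abs_le.2 ⟨by linarith, by linarith⟩
    linarith [(hφ.abs_le t (H3.slope 0 r)).2]
  have z : ∀ r : ℤ × ℤ, det r r = 0 := fun r => sub_self _
  have := tree (R := 2 * B * R') (R' := R') (fun r => f (QF 0 c r))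
    (fun r => 0 ≤ det p r ∧ 0 ≤ det r q) B1 hB (fun _ _ _ _ => cone_cmb)
    (fun r r' c1 c2 c3 c4 c5 c6 c7 => hC r r' (in1 r c1 c3 c5).1 (in1 r' c2 c4 c6).1 c1 c2 c7
      (in1 r c1 c3 c5).2 (in1 r' c2 c4 c6).2) le_rfl (det x q + det p x).toNat p q (det x q)
    (det p x) α β (by omega) g2 g1 e1 ⟨(z p).ge, by omega⟩ ⟨by omega, (z q).ge⟩ p0 q0 (by omega)
    (by omega) (by rwa [e]) (by rwa [e]) b1 b2 b3 b4 b5
  rwa [e] at this

theorem mul_step (hf : CM f) (P : Par D W K c) (hd : 4 * c - 0 ^ 2 ≠ 0)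
    (hφ : Ang (4 * (c : ℝ) - (0 : ℤ) ^ 2) φ) {p : ℤ × ℤ} {u v : ℤ} (hp : Cl D W p)
    (hμ : Cl D W (u, 2 * v)) (m3 : |(v : ℝ) / u| ≤ tw 0 c / 4) (h3 : |H3.slope 0 p| ≤ tw 0 c / 2) :
    ∃ r, Cl D W r ∧ r.1 ≤ 2 * p.1 * u ∧ φ (H3.slope 0 r) = φ (H3.slope 0 p) + φ (v / u) ∧
      f (QF 0 c r) = f (QF 0 c (u, 2 * v)) * f (QF 0 c p) := by
  have t0 := tw_pos hd
  have e16 : tw 0 c / 2 = 1 / (16 * |4 * (c : ℝ) - (0 : ℤ) ^ 2|) := by
    unfold tw; rw [div_div]; congr 1; ring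
  have hX : (0 : ℝ) < p.1 := by exact_mod_cast hp.1
  have hu : (0 : ℝ) < u := by exact_mod_cast hμ.1
  have hden := abs_le.1 (den_bound (tw_sq hd) h3 m3)
  have eX : ((p.1 * u - c * p.2 * (2 * v) : ℤ) : ℝ) =
      p.1 * u * (1 - (4 * (c : ℝ) - (0 : ℤ) ^ 2) * (H3.slope 0 p * ((v : ℝ) / u))) := by
    unfold H3.slope; rw [XF0]; push_cast; field_simp; ring
  have hpos : (0 : ℝ) < 1 - (4 * (c : ℝ) - (0 : ℤ) ^ 2) * (H3.slope 0 p * ((v : ℝ) / u)) := by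
    linarith [hden.2]
  have n0 : 0 < p.1 * u - c * p.2 * (2 * v) := by
    rw [← Int.cast_pos (R := ℝ), eX]; positivity
  have n1 : p.1 * u - c * p.2 * (2 * v) ≤ 2 * p.1 * u := by
    rw [← Int.cast_le (R := ℝ), eX]
    push_cast at hden ⊢
    nlinarith [hden.1, mul_pos hX hu]
  obtain ⟨g, r, g0, cr, r1, r2⟩ := hp.mul P hμ n0
  simp only at r1 r2
  have g1 : (0 : ℝ) < g := by exact_mod_cast g0
  have r0 : (0 : ℝ) < r.1 := by exact_mod_cast cr.1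
  have es : H3.slope 0 r = (H3.slope 0 p + (v : ℝ) / u) /
      (1 - (4 * (c : ℝ) - (0 : ℤ) ^ 2) * (H3.slope 0 p * ((v : ℝ) / u))) := by
    have a1 : (p.1 * (2 * v) + p.2 * u : ℝ) = g * r.2 := by exact_mod_cast r2
    rw [r1, Int.cast_mul, mul_comm (_ * _), ← div_eq_iff (by positivity)] at eX
    rw [← eX]
    unfold H3.slope
    rw [XF0, XF0]
    push_cast
    field_simp
    linear_combination -a1
  have ad : ∀ x : ℤ × ℤ, 0 < x.1 → |H3.slope 0 x| ≤ tw 0 c → 0 < QF 0 c x := fun x a1 a2 =>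
    ((adm_iff hd _ x).2 ⟨by rw [XF0]; omega, le_rfl, a2⟩).pos hd
  have pp := ad p hp.1 (by linarith)
  have pr := ad r cr.1 (es ▸ add_bound (tw_sq hd) h3 m3)
  have e2 : g ^ 2 * QF 0 c r = QF 0 c (u, 2 * v) * QF 0 c p := by
    simp only [QF0]
    linear_combination -(p.1 * u - c * p.2 * (2 * v) + g * r.1) * r1 -
      c * (p.1 * (2 * v) + p.2 * u + g * r.2) * r2
  refine ⟨r, cr, by nlinarith [cr.1], by
    rw [es]; exact hφ.add (one_le_D hd) (h3.trans_eq e16) (m3.trans (by linarith)), ?_⟩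
  rw [← hf.sq_mul g0.ne' pr, e2, hf.mul _ _ (pos_of_mul_pos_left (e2 ▸ by positivity) pp.le) pp]

theorem exists_sign (hf : CM f) (P : Par D W K c) (hd : 4 * c - 0 ^ 2 ≠ 0)
    (hφ : Ang (4 * (c : ℝ) - (0 : ℤ) ^ 2) φ) (B1 : 1 ≤ B)
    (hB : ∀ p q : ℤ × ℤ, det p q = 1 → 0 < p.1 → 0 < q.1 →
      ∃ α β, 0 ≤ α ∧ α ≤ B ∧ 0 ≤ β ∧ β ≤ B ∧ Cl D W (cmb α β p q)) {R T N N₁ : ℤ}
    (hC : ∀ p q, Adm 0 c R p → Adm 0 c R q → Cl D W p → Cl D W q → |det p q| ≤ 2 * B ^ 2 →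
      p ∉ C → q ∉ C → f (QF 0 c p) = f (QF 0 c q)) (hV : ∀ p, Adm 0 c N p → p ∈ V)
    {L₀ ρ₀ q₀ L ρ q₁ : ℝ} (hρ : 2 ≤ ρ₀) (hN : 8 * ρ₀ ≤ N) (hq : 0 < q₀) (hL : 2 / (q₀ * ρ₀) ≤ L₀)
    (hL' : L₀ ≤ tw 0 c / 2) (hρ1 : 2 ≤ ρ) (hN1 : 8 * ρ ≤ N₁) (hq1 : 0 < q₁)
    (hL1 : 2 / (q₁ * ρ) ≤ L) (hL1' : L ≤ tw 0 c / 2) (hR : 4 * B * (2 * (B * N₁) * T) ≤ R)
    (hR' : N ≤ N₁) (T1 : 1 ≤ T) :
    ∃ s : ℝ → ℤ, (∀ θ, s θ ≠ 0) ∧ ∀ u v : ℤ, Cl D W (u, 2 * v) → u ≤ T →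
      |(v : ℝ) / u| ≤ tw 0 c / 4 → ∀ t, |t| ≤ L → Good s (tw 0 c / 8) (φ (v / u) + t)
        (f (QF 0 c (u, 2 * v)))
        (2 * (4 * L₀ * C.card + 12 * q₀ / ρ₀ + (4 * L * V.card + 12 * q₁ / ρ))) := by
  classical
  have t0 := tw_pos hd
  have hL0 : 0 ≤ L₀ := le_trans (by positivity) hL
  have hL2 : 0 ≤ L := le_trans (by positivity) hL1
  have N0 : 0 ≤ N₁ := by exact_mod_cast (show (0 : ℝ) ≤ N₁ by linarith)
  have n1 : N₁ ≤ B * N₁ := le_mul_of_one_le_left N0 B1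
  have n2 : B * N₁ ≤ 2 * (B * N₁) * T := by nlinarith
  have hp : ∀ θ, ∃ p : ℤ × ℤ, 0 < QF 0 c p ∧ (|θ| ≤ tw 0 c / 8 → θ ∉ Bad φ 0 V L ρ q₁ →
      Cl D W p ∧ p.1 ≤ B * N₁ ∧ |H3.slope 0 p| ≤ tw 0 c / 2 ∧ |φ (H3.slope 0 p) - θ| ≤ L) := by
    intro θ
    by_cases h : |θ| ≤ tw 0 c / 8 ∧ θ ∉ Bad φ 0 V L ρ q₁
    · obtain ⟨t, ht, rfl⟩ := surj' hφ (τ := tw 0 c / 4) (θ := θ) (by linarith)
      obtain ⟨p, q, e1, a1, a2, a3, a4, a5, a6, a7⟩ := edge hd hφ hρ1 hN1 hq1 hL1 ht h.2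
      rw [XF0] at a1 a2 a3 a4
      have p0 : 0 < p.1 := by omega
      have q0 : 0 < q.1 := by omega
      obtain ⟨α, β, b1, b2, b3, b4, b5⟩ := hB p q e1 p0 q0
      have z : ∀ r : ℤ × ℤ, det r r = 0 := fun r => sub_self _
      obtain ⟨c1, c2⟩ := cone_cmb (p₀ := p) (q₀ := q) (p := p) (q := q) ⟨(z p).ge, by omega⟩
        ⟨by omega, (z q).ge⟩ b1 b3
      rw [← slope_le p0 b5.1] at c1
      rw [← slope_le b5.1 q0] at c2
      have c3 : |H3.slope 0 (cmb α β p q) - t| ≤ L / 2 := abs_le.2 ⟨by linarith, by linarith⟩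
      have c4 : |H3.slope 0 (cmb α β p q)| ≤ tw 0 c / 2 := by
        rw [abs_le] at ht c3 ⊢
        constructor <;> linarith
      refine ⟨cmb α β p q, ((adm_iff hd _ _).2 ⟨by rw [XF0]; linarith [b5.1], le_rfl,
        by linarith⟩).pos hd, fun _ _ => ⟨b5, ?_, c4, by
          linarith [(hφ.abs_le t (H3.slope 0 (cmb α β p q))).2]⟩⟩
      have := mul_le_mul b2 a2 (by omega) (by omega)
      have := mul_le_mul b4 a4 (by omega) (by omega)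
      simp only [cmb]; linarith
    · exact ⟨(1, 0), by simp [QF], fun a a' => absurd ⟨a, a'⟩ h⟩
  choose p p0 hp using hp
  refine ⟨fun θ => f (QF 0 c (p θ)), fun θ => ?_, fun u v hμ hu m3 t ht => ?_⟩
  · rcases hf.sgn _ (p0 θ) with h | h <;> simp [h]
  have v0 := vol_bad φ 0 C hL0 (show 0 < ρ₀ by linarith) hq.le
  have v1 := vol_bad φ 0 V hL2 (show 0 < ρ by linarith) hq1.le
  have v2 := (measure_union_le _ _).trans (add_le_add v0 v1)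
  rw [← ENNReal.ofReal_add (by positivity) (by positivity)] at v2
  have v3 := v2
  rw [← measure_preimage_add_right volume (φ (v / u) + t)] at v3
  unfold Good
  rw [two_mul (_ + _ : ℝ), ENNReal.ofReal_add (by positivity) (by positivity)]
  refine le_trans (measure_mono ?_) ((measure_union_le _ _).trans (add_le_add v2 v3))
  rintro θ ⟨g1, g2, g3⟩
  by_contra g4
  simp only [Set.mem_union, Set.mem_preimage, not_or] at g4
  obtain ⟨a1, a2, a3, a4⟩ := hp θ g1 g4.1.2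
  obtain ⟨b1, b2, b3, b4⟩ := hp _ g2 g4.2.2
  obtain ⟨r, c1, c2, c3, c4⟩ := mul_step hf P hd hφ a1 hμ m3 a3
  obtain ⟨e, he⟩ := same hd hφ B1 hB hC hV hρ hN hq hL hL' hR (by linarith) g2 g4.2.1 g4.2.2
  refine g3 (((he _ b1 (by linarith) (by linarith)).trans (he r c1 (c2.trans ?_) ?_).symm).trans c4)
  · exact mul_le_mul (by linarith) hu hμ.1.le (by linarith)
  · rw [c3, show φ (H3.slope 0 (p θ)) + φ (v / u) - (θ + (φ (v / u) + t)) =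
      φ (H3.slope 0 (p θ)) - θ - t by ring]
    linarith [abs_sub (φ (H3.slope 0 (p θ)) - θ) t]

end Pool.Agent.P.MP_192724_nt.G
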