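import Pool.Agent.P.MP_192724_nt.G.Mu
import Pool.Agent.P.MP_192724_nt.G.Loc
import Pool.Agent.P.MP_192724_nt.G.Ch

/-! Choice of parameters and the final contradiction. -/

set_option autoImplicit false

namespace Pool.Agent.P.MP_192724_nt.G

open Finset Filter H3

variable {f : ℤ → ℤ} {a b c c' N₀ σ D W K : ℤ}

theorem lb_le (hf : CM f) (ha : 0 < a)
    (H : ∀ n, N₀ ≤ n → 0 < a * n ^ 2 + b * n + c ∧ f (a * n ^ 2 + b * n + c) = σ)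
    (hD : D = b ^ 2 - 4 * a * c) (P : Par D W K c') (K0 : 0 < K) (hW : 4 * a * D ∣ W) (M A : ℕ) :
    ∀ᶠ s : ℕ in atTop, ∀ X : ℕ, 2 ^ (s ^ 2) ≤ X →
      (#(Lb f D W c' X M) : ℝ) ≤ M ^ 2 * (X / s ^ A) := by
  classical
  set I := (Icc (1 : ℤ) M).filter fun m => W ∣ m with hI
  filter_upwards [(eventually_all_finset I).2 fun m hm => sparse hf ha H hD (m := K * m)
    (mul_pos K0 (mem_Icc.1 (mem_filter.1 hm).1).1) ((hW.trans (mem_filter.1 hm).2).mul_left K) A]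
    with s hs X hX
  have c1 : (#(Icc (1 : ℤ) M) : ℝ) = M := by simp
  have c2 : (#I : ℝ) ≤ M := c1 ▸ Nat.cast_le.2 (card_filter_le _ _)
  have sub : Lb f D W c' X M ⊆ (Icc (1 : ℤ) M ×ˢ I).biUnion fun x =>
      ((Ioc 0 X).filter fun U : ℕ => IsCoprime (U : ℤ) (K * x.2) ∧ jacobiSym D U = 1 ∧
        0 < (U : ℤ) ^ 2 - D * (K * x.2) ^ 2 ∧ f ((U : ℤ) ^ 2 - D * (K * x.2) ^ 2) = -1).image
          fun U : ℕ => (x.1 * U, x.1 * x.2) := by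
    intro x hx
    obtain ⟨m1, g, r, g0, cr, r1, r2, r3, r4⟩ := mem_filter.1 hx
    obtain ⟨m2, m3⟩ := mem_Icc.1 (mem_product.1 m1).1
    obtain ⟨m4, m5⟩ := mem_Icc.1 (mem_product.1 m1).2
    have r0 := cr.1
    have r5 : 0 < r.2 := pos_of_mul_pos_right (by omega) g0.le
    have e0 : (r.1.natAbs : ℤ) = r.1 := Int.natAbs_of_nonneg r0.le
    have e1 : QF 0 c' r = r.1 ^ 2 - D * (K * r.2) ^ 2 := by rw [QF0, P.hc]; ring
    have r6 : r.1 ≤ X := by nlinarith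
    refine mem_biUnion.2 ⟨(g, r.2), mem_product.2 ⟨mem_Icc.2 ⟨g0, by nlinarith⟩,
      mem_filter.2 ⟨mem_Icc.2 ⟨r5, by nlinarith⟩, cr.2.2.1⟩⟩, mem_image.2 ⟨r.1.natAbs,
        mem_filter.2 ⟨mem_Ioc.2 ⟨by omega, by omega⟩, ?_⟩, ?_⟩⟩
    · rw [e0, ← e1]
      exact ⟨cr.cK P, cr.2.2.2, r3, r4⟩
    · rw [e0]
      exact Prod.ext r1.symm r2.symm
  refine (Nat.cast_le.2 ((card_le_card sub).trans card_biUnion_le)).trans ?_
  push_cast
  refine (sum_le_card_nsmul _ _ (X / s ^ A : ℝ) fun x hx =>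
    (Nat.cast_le.2 card_image_le).trans (hs _ (mem_product.1 hx).2 X hX)).trans ?_
  rw [nsmul_eq_mul, card_product, Nat.cast_mul, c1, sq]
  gcongr

theorem params (u M : ℕ) : ∀ᶠ s : ℕ in atTop, 1 ≤ s ∧ (u * (4 * s ^ 2) ^ 6) ^ 16 ≤ 2 ^ (s ^ 2) ∧
    2 * M ^ 2 * (u * (4 * s ^ 2) ^ 6) ^ 82 ≤ s ^ 1067 := by
  filter_upwards [ev_pow 208, eventually_ge_atTop (4096 * u + 2 * M ^ 2 + 1)] with s h1 h2
  have h3 : u * (4 * s ^ 2) ^ 6 ≤ s ^ 13 := by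
    calc _ = 4096 * u * s ^ 12 := by ring
      _ ≤ s * s ^ 12 := Nat.mul_le_mul_right _ (by omega)
      _ = _ := by ring
  refine ⟨by omega, (Nat.pow_le_pow_left h3 _).trans ?_, ?_⟩
  · rw [← pow_mul]
    exact h1.trans (Nat.pow_le_pow_right two_pos (Nat.le_self_pow two_ne_zero s))
  · refine (Nat.mul_le_mul (show _ ≤ s by omega) (Nat.pow_le_pow_left h3 _)).trans_eq ?_
    rw [← pow_mul, ← pow_succ']

theorem fin_ineq {L t n v : ℝ} (hL : 16800 ≤ L) (ht : 0 < t) (hn : n ≤ t ^ 2 / L ^ 10)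
    (hv : v ≤ 3 * t ^ 2) : 4 * L ^ 4 * (2 * (4 * (128 * L ^ 5 / t ^ 2) * n +
      12 * (t / 8 / L ^ 5) / (t / 8) + (4 * (128 / (L ^ 5 * t ^ 2)) * v +
        12 * (L ^ 5 * t / 8 / L ^ 5) / (L ^ 5 * t / 8)))) < 1 := by
  have L0 : 0 < L := by linarith
  calc _ ≤ 4 * L ^ 4 * (2 * (4 * (128 * L ^ 5 / t ^ 2) * (t ^ 2 / L ^ 10) +
      12 * (t / 8 / L ^ 5) / (t / 8) + (4 * (128 / (L ^ 5 * t ^ 2)) * (3 * t ^ 2) +
        12 * (L ^ 5 * t / 8 / L ^ 5) / (L ^ 5 * t / 8)))) := by gcongr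
    _ = 16576 / L := by field_simp; ring
    _ < 1 := (div_lt_one L0).2 (by linarith)

theorem cen_ineq {L t n l k D M S H : ℝ} (hL : 1 ≤ L) (ht : 0 < t) (hM : 0 < M) (hD : 0 ≤ D)
    (h1 : n ≤ (L ^ 28) ^ 2 * l + 6 * (D + 1) * (L ^ 8 * t) ^ 2 * H / L ^ 28)
    (h2 : l ≤ M ^ 2 * ((L ^ 8 * t) ^ 2 / S)) (h3 : 2 * M ^ 2 * L ^ 82 ≤ S) (h4 : H ≤ 4 * k ^ 2)
    (h5 : 48 * (D + 1) * k ^ 2 ≤ L ^ 2) : n ≤ t ^ 2 / L ^ 10 := by
  have L0 : 0 < L := by linarith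
  have h6 : (D + 1) * H ≤ L ^ 2 / 12 := by nlinarith
  calc _ ≤ _ := h1
    _ = (L ^ 28) ^ 2 * l + 6 * ((D + 1) * H) * (L ^ 8 * t) ^ 2 / L ^ 28 := by ring
    _ ≤ (L ^ 28) ^ 2 * (M ^ 2 * ((L ^ 8 * t) ^ 2 / (2 * M ^ 2 * L ^ 82))) +
        6 * (L ^ 2 / 12) * (L ^ 8 * t) ^ 2 / L ^ 28 := by
      gcongr
      exact h2.trans (by gcongr)
    _ = _ := by field_simp; ring

theorem qf_pos (hd : 4 * c - 0 ^ 2 ≠ 0) {u v : ℤ} (u0 : 0 < u) (h : |(v : ℝ) / u| ≤ tw 0 c) :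
    0 < QF 0 c (u, 2 * v) := by
  refine ((adm_iff hd _ _).2 ⟨by rw [XF0]; omega, le_rfl, ?_⟩).pos hd
  unfold H3.slope
  rw [XF0]
  push_cast
  rwa [mul_div_mul_left _ _ two_ne_zero]

theorem core (hf : CM f) (P : Par D W K c) (hD : D ≠ 0) (K0 : 0 < K) {p : ℕ} (hp : p.Prime)
    (h1 : 4 * W ∣ p - 1) (hfp : f p = -1) {B : ℤ} (B1 : 1 ≤ B)
    (hB : ∀ p q : ℤ × ℤ, det p q = 1 → 0 < p.1 → 0 < q.1 →
      ∃ α β, 0 ≤ α ∧ α ≤ B ∧ 0 ≤ β ∧ β ≤ B ∧ Cl D W (cmb α β p q)) {m : ℕ} (hm : 2 * B ^ 2 = m)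
    (hM : 2 * B ^ 2 ≤ |c|) : ∃ u : ℕ, 0 < u ∧ ∀ k t L : ℕ, 1 ≤ k → L = u * k ^ 6 → L ^ 16 ≤ t →
      t ^ 4 ≤ 2 ^ k → ∀ S : ℝ, 2 * m ^ 2 * L ^ 82 ≤ S →
        ¬ (#(Lb f D W c ((L ^ 8 * t) ^ 2 : ℕ) m) : ℝ) ≤ m ^ 2 * (((L ^ 8 * t) ^ 2 : ℕ) / S) := by
  have hd : 4 * c - 0 ^ 2 ≠ 0 := by
    rw [P.hc, sq 0, mul_zero, sub_zero]
    exact mul_ne_zero four_ne_zero (mul_ne_zero (neg_ne_zero.2 hD) (by positivity))
  have d1 := one_le_D hd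
  have W0 := P.W0
  obtain ⟨Dn, eD⟩ : ∃ Dn : ℕ, |4 * (c : ℝ) - (0 : ℤ) ^ 2| = (Dn : ℝ) :=
    ⟨(4 * c - 0 ^ 2).natAbs, by simp⟩
  have Dn1 : 1 ≤ Dn := by rw [eD] at d1; exact_mod_cast d1
  obtain ⟨u₀, v₀, μ1, μ2, μ3, μ4⟩ := exists_mu hf P hD K0 hp h1 hfp (256 * Dn) (by positivity)
  obtain ⟨A, hA⟩ := exists_ang d1
  obtain ⟨η, η0, η1, hη⟩ := exists_hankel d1
  obtain ⟨c₀, hc₀⟩ := exists_nat_ge
    (128 * Real.exp 129 / η ^ 2 + 256 * |4 * (c : ℝ) - (0 : ℤ) ^ 2| / η)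
  obtain ⟨E, hE⟩ := Int.eq_ofNat_of_zero_le (show 0 ≤ 24 * B ^ 2 * W + u₀ by
    have := μ1.1; positivity)
  obtain ⟨u, hu⟩ : ∃ u, u = 16800 * Dn + E + c₀ := ⟨_, rfl⟩
  refine ⟨u, by omega, fun k t L hk hL ht h2 S hS hl => ?_⟩
  obtain ⟨γ, h, g1, g2, g3, g4, g5, g6⟩ := hη k _ hk rfl
  have l0 : 1 ≤ k ^ 6 := Nat.one_le_pow _ _ hk
  have l1 : u ≤ u * k ^ 6 := Nat.le_mul_of_pos_right _ l0
  have l2 : 16384 * k ^ 6 ≤ u * k ^ 6 := Nat.mul_le_mul_right _ (by omega)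
  have l3 : 96 * Dn * k ^ 2 ≤ u * k ^ 6 :=
    Nat.mul_le_mul (by omega) (Nat.pow_le_pow_right hk (by norm_num))
  have l4 : k ^ 3 ≤ k ^ 6 := Nat.pow_le_pow_right hk (by norm_num)
  have l5 : k ^ 4 ≤ k ^ 6 := Nat.pow_le_pow_right hk (by norm_num)
  have l6 : (1 : ℝ) ≤ (k : ℝ) ^ 6 := by exact_mod_cast l0
  have l7 : (257 * |4 * (c : ℝ) - (0 : ℤ) ^ 2| + c₀) * (k : ℝ) ^ 6 ≤ (u * k ^ 6 : ℕ) := by
    rw [eD]
    exact_mod_cast Nat.mul_le_mul_right _ (by omega : 257 * Dn + c₀ ≤ u)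
  obtain ⟨M, y5, y6, y7, y8⟩ := exists_M d1 η0 η1 hc₀ l6 l7 Dn eD
  rw [← hL] at l1 l2 l3 y7 y8
  have L1 : 1 ≤ L := by omega
  have n1 : ∀ i, i ≤ 16 → L ^ i ≤ t := fun i hi => (Nat.pow_le_pow_right L1 hi).trans ht
  have n2 : L ≤ t := by simpa using n1 1 (by norm_num)
  have n3 : (L ^ 8 * t) ^ 2 ≤ 2 ^ k := by
    refine le_trans ?_ h2
    calc _ = L ^ 16 * t ^ 2 := by ring
      _ ≤ t ^ 2 * t ^ 2 := Nat.mul_le_mul_right _ (ht.trans (Nat.le_self_pow two_ne_zero t))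
      _ = _ := by ring
  have n4 : 1 ≤ L ^ 8 * t := Nat.mul_pos (by positivity) (by omega)
  have r1 : (1 : ℝ) ≤ L := by exact_mod_cast L1
  have r3 : 16800 * (Dn : ℝ) ≤ L := by exact_mod_cast (show 16800 * Dn ≤ L by omega)
  have r4 : (L : ℝ) ≤ t := by exact_mod_cast n2
  have D1 : (1 : ℝ) ≤ Dn := by exact_mod_cast Dn1
  have k1 : (1 : ℝ) ≤ k := by exact_mod_cast hk
  have t0 : (0 : ℝ) < t := by linarith
  have m0 : (0 : ℝ) < m := by exact_mod_cast (show (0 : ℤ) < m by rw [← hm]; positivity)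
  obtain ⟨C, hC1, hC2⟩ := centers hf P hd (L ^ 8 * t) n4 hM (L ^ 28) (by positivity)
  have hH : (1 + Real.log (L ^ 8 * t : ℕ)) ^ 2 ≤ 4 * (k : ℝ) ^ 2 := by
    have hR' : (1 : ℝ) ≤ (L ^ 8 * t : ℕ) := by exact_mod_cast n4
    have a1 : Real.log (((L ^ 8 * t : ℕ) : ℝ) ^ 2) ≤ Real.log (2 ^ k) :=
      Real.log_le_log (by positivity) (by exact_mod_cast n3)
    rw [Real.log_pow, Real.log_pow] at a1
    have a2 := Real.log_two_lt_d9
    have a3 := Real.log_nonneg hR'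
    have a6 : 1 + Real.log (L ^ 8 * t : ℕ) ≤ 2 * k := by
      rw [Nat.cast_two] at a1
      nlinarith only [a1, a2, a3, k1]
    calc _ ≤ (2 * (k : ℝ)) ^ 2 := pow_le_pow_left₀ (by linarith only [a3]) a6 2
      _ = _ := by ring
  have hC : (#C : ℝ) ≤ t ^ 2 / L ^ 10 := by
    rw [eD, hm] at hC1
    push_cast at hC1 hl hH
    refine cen_ineq r1 t0 m0 (by positivity) hC1 hl hS hH ?_
    have : 96 * (Dn : ℝ) * k ^ 2 ≤ L := by exact_mod_cast l3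
    nlinarith only [this, D1, r1, mul_le_mul_of_nonneg_right D1 (sq_nonneg (k : ℝ))]
  have htw : tw 0 c = 1 / (8 * Dn) := by rw [← eD]; rfl
  have p5 : (1 : ℝ) ≤ L ^ 5 := one_le_pow₀ r1
  have hG : (128 * L ^ 5 / t ^ 2 : ℝ) ≤ tw 0 c / 2 := by
    rw [htw, div_div, div_le_div_iff₀ (by positivity) (by positivity)]
    have a1 : (L : ℝ) ^ 5 ≤ t := by exact_mod_cast n1 5 (by norm_num)
    nlinarith only [mul_le_mul a1 (r3.trans r4) (by positivity) t0.le, sq_nonneg (t : ℝ)]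
  have z1 : (1 : ℤ) ≤ L := by exact_mod_cast L1
  have z2 : 24 * B ^ 2 * W + u₀ ≤ L := by rw [hE]; exact_mod_cast (show E ≤ L by omega)
  have z3 : (L : ℤ) ≤ W * L := le_mul_of_one_le_left (by omega) W0
  have z4 : 0 ≤ 24 * B ^ 2 * W := by positivity
  have u0 : 0 < u₀ := μ1.1
  obtain ⟨s, hs, j3⟩ := exists_sign (V := Icc 1 (t : ℤ) ×ˢ Icc (-(t : ℤ)) t) (T := 3 * (W * L))
    (N := t) (N₁ := L ^ 5 * t) (L₀ := 128 * L ^ 5 / t ^ 2) (ρ₀ := t / 8) (q₀ := t / 8 / L ^ 5)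
    (L := 128 / (L ^ 5 * t ^ 2)) (ρ := L ^ 5 * t / 8) (q₁ := L ^ 5 * t / 8 / L ^ 5)
    hf P hd hA B1 hB hC2
    (fun p hp => by
      obtain ⟨a1, a2, -⟩ := adm0 hp
      have a3 := (hp.bounds hd).2.2
      rw [XF0] at a3
      exact mem_product.2 ⟨mem_Icc.2 ⟨a1, by omega⟩, mem_Icc.2 (abs_le.1 (by omega))⟩)
    (by linarith) (by push_cast; linarith) (by positivity) (le_of_eq (by field_simp; norm_num)) hG
    (by nlinarith only [p5, r3, r4, D1]) (by push_cast; linarith) (by positivity)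
    (le_of_eq (by field_simp; norm_num))
    (le_trans (by
      rw [div_le_div_iff₀ (by positivity) (by positivity)]
      nlinarith only [mul_le_mul_of_nonneg_right (one_le_mul_of_one_le_of_one_le p5 p5)
        (sq_nonneg (t : ℝ))]) hG)
    (by
      have a1 : 24 * B ^ 2 * W ≤ (L : ℤ) ^ 2 := by nlinarith only [z1, z2, u0]
      have a2 := mul_le_mul_of_nonneg_right a1 (show (0 : ℤ) ≤ L ^ 6 * t by positivity)
      push_cast
      linarith only [a2])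
    (le_mul_of_one_le_left (by positivity) (one_le_pow₀ z1)) (by omega)
  have e64 : tw 0 c / 8 = 1 / (64 * |4 * (c : ℝ) - (0 : ℤ) ^ 2|) := by
    unfold tw; rw [div_div]; congr 1; ring
  rw [e64] at j3
  have sm : ∀ x : ℝ, 0 ≤ x → x ≤ 1 / (256 * Dn) → |x| ≤ tw 0 c / 4 := fun x a1 a2 => by
    rw [abs_of_nonneg a1, htw, div_div]
    exact a2.trans (one_div_le_one_div_of_le (by positivity) (by linarith only [D1]))
  have G0 : |(0 : ℝ)| ≤ 128 / (L ^ 5 * t ^ 2) := by rw [abs_zero]; positivity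
  have W1 : (1 : ℝ) ≤ W := by exact_mod_cast W0
  have U0 : (0 : ℝ) < u₀ := by exact_mod_cast u0
  have V0 : (0 : ℝ) ≤ v₀ / u₀ := div_nonneg (by exact_mod_cast μ2) U0.le
  have V1 : (v₀ : ℝ) / u₀ ≤ 1 / (256 * Dn) := by
    rw [div_le_div_iff₀ U0 (by positivity), one_mul, mul_comm]
    exact_mod_cast μ3
  have V2 := hA.lip 0 _ V0
  rw [hA.zero] at V2
  refine absurd (chain (R := L) (L := L) (G := 128 / (L ^ 5 * t ^ 2)) (w := 1 / W)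
    (t₀ := A (v₀ / u₀) + 0) hA d1 hs (by positivity) ((div_le_one (by linarith)).2 W1)
    g1 g2 g3 g4 g6 η0 (by positivity) (by rw [eD]; exact_mod_cast y5) y6 y7 y8
    le_rfl (by exact_mod_cast (by nlinarith only [l2] : 4 * (8 * k ^ 3) ^ 2 ≤ L))
    (fun n a1 a2 => ?_) (fun x hx => ?_) (μ4 ▸ j3 u₀ v₀ μ1 (by omega) (sm _ V0 V1) 0 G0)
    (by linarith only [V2.1, V0]) ?_ ?_ (by positivity)) (not_le.2 (fin_ineq (by linarith) t0 hC ?_))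
  · have a3 : 256 * (Dn : ℝ) ≤ n := by exact_mod_cast (show 256 * Dn ≤ n by omega)
    have a4 : (W : ℝ) / (1 + W * n : ℤ) = 1 / (n + 1 / W) := by push_cast; field_simp; ring
    have a5 : (0 : ℤ) < 1 + W * n := by positivity
    have a6 := sm (1 / (n + 1 / W)) (by positivity) (one_div_le_one_div_of_le (by positivity)
      (le_add_of_le_of_nonneg a3 (by positivity)))
    obtain ⟨w, hw⟩ : (2 : ℤ) ∣ W := (Dvd.intro (2 * D) (by ring)).trans P.hW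
    have a7 : IsCoprime (1 + W * n) W := ⟨1, -n, by ring⟩
    rw [← a4] at a6
    have := j3 (1 + W * n) W ⟨a5, (a7.of_isCoprime_of_dvd_right ⟨w, hw⟩).mul_right a7,
      dvd_mul_left _ _, (jac_cW P.hW a5 one_pos a7 ⟨n, by ring⟩).trans (by simp)⟩
      (by nlinarith only [mul_le_mul_of_nonneg_left (show (n : ℤ) ≤ 2 * L by omega) W0.le, z1, z3])
      a6 0 G0
    rw [a4, add_zero] at this
    exact ⟨_, hf.self (qf_pos hd a5 (by linarith only [a6, tw_pos hd])), this⟩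
  · have := j3 1 0 ⟨one_pos, isCoprime_one_left, by simp, by simp⟩ (by omega)
      (sm _ (by simp) (by simp)) x hx
    simpa [QF0, hA.zero, hf.one] using this
  · rw [eD, add_zero]
    have : 1 / (128 * (Dn : ℝ)) = 2 * (1 / (256 * Dn)) := by field_simp; norm_num
    linarith only [V2.2, V1, this]
  · refine (mul_le_mul_of_nonneg_left (g5 L (by linarith only [r1])) (by norm_num)).trans
      ((small_end hk (show _ ≤ L by omega) n3 (by positivity)).trans ?_)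
    push_cast
    rw [div_le_div_iff₀ (by positivity) (by positivity)]
    have a1 : (L : ℝ) ^ 5 ≤ L ^ 16 := pow_le_pow_right₀ r1 (by norm_num)
    nlinarith only [mul_le_mul_of_nonneg_right a1 (sq_nonneg (t : ℝ)),
      mul_nonneg (pow_nonneg (zero_le_one.trans r1) 16) (sq_nonneg (t : ℝ))]
  · have a1 : (1 : ℝ) ≤ t := by linarith
    rw [card_product, Int.card_Icc, Int.card_Icc, show ((t : ℤ) + 1 - 1).toNat = t by omega,
      show ((t : ℤ) + 1 - -t).toNat = 2 * t + 1 by omega]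
    push_cast
    nlinarith only [a1]

theorem not_const (hf : CM f) (ha : 0 < a) (hD : b ^ 2 - 4 * a * c ≠ 0) {p : ℕ} (hp : p.Prime)
    (h1 : 16 * a * (b ^ 2 - 4 * a * c) ∣ (p : ℤ) - 1) (hfp : f p = -1) :
    ¬ ∀ n, N₀ ≤ n → 0 < a * n ^ 2 + b * n + c ∧ f (a * n ^ 2 + b * n + c) = σ := by
  intro H
  set D := b ^ 2 - 4 * a * c with eD
  set W := |4 * a * D| with eW
  have W0 : 0 < W := by positivity
  have hW : 4 * a * D ∣ W := self_dvd_abs _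
  have hW' : 4 * D ∣ W := (Dvd.intro a (by ring)).trans hW
  obtain ⟨B, B1, hB⟩ := exists_B W0 hW'
  obtain ⟨m, hm⟩ := Int.eq_ofNat_of_zero_le (show 0 ≤ 2 * B ^ 2 by positivity)
  have W2 : 2 ≤ W := Int.le_of_dvd W0 ((Dvd.intro (2 * D) (by ring)).trans hW')
  have K0 : 0 < W ^ m := by positivity
  have P : Par D W (W ^ m) (-D * (W ^ m) ^ 2) := ⟨rfl, hW', ⟨m, dvd_rfl⟩, W0⟩
  obtain ⟨u, u0, hu⟩ := core hf P hD K0 hp (by
    rw [eW, ← abs_of_pos (show (0 : ℤ) < 4 by norm_num), ← abs_mul, abs_dvd, abs_of_pos (by norm_num)]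
    exact (dvd_of_eq (by ring)).trans h1) hfp B1 hB hm (by
    have a1 : (m : ℤ) ≤ 2 ^ m := by exact_mod_cast Nat.lt_two_pow_self.le
    have a2 := pow_le_pow_left₀ zero_le_two W2 m
    have a3 := Int.one_le_abs hD
    rw [hm, abs_mul, abs_neg, abs_of_pos (pow_pos K0 2)]
    nlinarith)
  obtain ⟨s, ⟨s1, s2, s3⟩, s4⟩ := ((params u m).and (lb_le hf ha H eD P K0 hW m 1067)).exists
  refine hu (4 * s ^ 2) _ _ (by nlinarith) rfl s2 (le_of_eq (by rw [← pow_mul, mul_comm])) _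
    (by exact_mod_cast s3) (s4 _ ?_)
  exact (Nat.le_mul_of_pos_left _ (by positivity)).trans (Nat.le_self_pow two_ne_zero _)

theorem inf_pos (ha : 0 < a) (hD : b ^ 2 - 4 * a * c ≠ 0) (hσ : σ = 1 ∨ σ = -1) :
    {n : ℕ | a * n ^ 2 + b * n + c ≠ 0 ∧ lam (a * n ^ 2 + b * n + c) = σ}.Infinite := by
  intro hfin
  obtain ⟨N, hN⟩ := hfin.bddAbove
  obtain ⟨p, hp, -, h1⟩ := Nat.exists_prime_gt_modEq_one (k := (16 * a * (b ^ 2 - 4 * a * c)).natAbs)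
    0 (Int.natAbs_ne_zero.2 (by positivity))
  refine not_const (f := lam) (N₀ := N + 1 + |b| + |c|) (σ := -σ)
    ⟨fun _ _ h h' => lam_mul h.ne' h'.ne', fun n _ => lam_or n⟩ ha hD hp
    (Int.natAbs_dvd.1 (by simpa using h1.symm.dvd)) (lam_prime hp) fun n hn => ?_
  have b0 := abs_nonneg b
  have c0 := abs_nonneg c
  obtain ⟨k, rfl⟩ := Int.eq_ofNat_of_zero_le (show 0 ≤ n by omega)
  have h2 : 0 < a * k ^ 2 + b * k + c := by
    have h3 : (0 : ℤ) ≤ k := by positivity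
    nlinarith [mul_le_mul_of_nonneg_right (neg_abs_le b) h3, neg_abs_le c,
      mul_le_mul_of_nonneg_right (show 1 ≤ a by omega) (sq_nonneg (k : ℤ)),
      mul_le_mul_of_nonneg_right (show 1 + |b| + |c| ≤ k by omega) h3,
      mul_le_mul_of_nonneg_left (show (1 : ℤ) ≤ k by omega) c0]
  refine ⟨h2, ?_⟩
  have h4 : lam (a * k ^ 2 + b * k + c) ≠ σ := fun h => by
    have : k ≤ N := hN ⟨h2.ne', h⟩
    omega
  rcases lam_or (a * k ^ 2 + b * k + c) with h | h <;> rcases hσ with rfl | rfl <;> simp_all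

theorem inf_all (ha : a ≠ 0) (hD : b ^ 2 ≠ 4 * a * c) (hσ : σ = 1 ∨ σ = -1) :
    {n : ℕ | a * n ^ 2 + b * n + c ≠ 0 ∧ lam (a * n ^ 2 + b * n + c) = σ}.Infinite := by
  rcases lt_or_gt_of_ne ha with h | h
  · refine (inf_pos (a := -a) (b := -b) (c := -c) (by omega)
      (fun h => hD (by linear_combination h)) hσ).mono fun n hn => ?_
    have e : -a * n ^ 2 + -b * n + -c = -(a * n ^ 2 + b * n + c) := by ring
    rw [Set.mem_setOf_eq, e, neg_ne_zero, lam, Int.natAbs_neg] at hn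
    exact hn
  · exact inf_pos h (sub_ne_zero.2 hD) hσ

end Pool.Agent.P.MP_192724_nt.G
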