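import Pool.Agent.P.MP_a14ce1_nt.Ch.Mertens

/-! A lower bound for the sum of reciprocals of primes in a residue class. -/

set_option autoImplicit false

namespace Pool.Agent.P.MP_192724_nt.G

open Finset ArithmeticFunction ArithmeticFunction.vonMangoldt

theorem tele (u : ℝ) (I : ℕ) :
    ∑ i ∈ range I, u / 2 ^ i * Real.exp (-(u / 2 ^ i)) ≤ 2 * Real.exp (-(u / 2 ^ I)) := by
  induction I with
  | zero => simp; positivity
  | succ I ih =>
    rw [sum_range_succ]
    have h1 := Real.add_one_le_exp (u / 2 ^ (I + 1))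
    have h2 : Real.exp (-(u / 2 ^ (I + 1))) =
        Real.exp (u / 2 ^ (I + 1)) * Real.exp (-(u / 2 ^ I)) := by
      rw [← Real.exp_add]; congr 1; ring
    have h3 : u / 2 ^ I = 2 * (u / 2 ^ (I + 1)) := by ring
    have h4 := mul_le_mul_of_nonneg_right h1 (Real.exp_pos (-(u / 2 ^ I))).le
    rw [h2]
    nth_rewrite 1 [h3]
    linarith

theorem mertens_ap (Q : ℕ) (hQ : 0 < Q) (r : ℤ) (hr : IsCoprime r Q) (y₀ : ℕ) :
    ∃ C : ℝ, ∀ s : ℕ, 1 ≤ s → Real.log s / (2 * Q) - C ≤
      ∑ p ∈ (Ioc y₀ (2 ^ s)).filter (fun p : ℕ => p.Prime ∧ (Q : ℤ) ∣ p - r), (1 : ℝ) / p := by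
  have : NeZero Q := ⟨hQ.ne'⟩
  have ha : IsUnit (r : ZMod Q) := (ZMod.coe_int_isUnit_iff_isCoprime r Q).2 hr.symm
  set a : ZMod Q := (r : ZMod Q) with hadef
  obtain ⟨C, hC⟩ := LSeries_residueClass_lower_bound ha
  obtain ⟨C₆, C60, h6⟩ := MP_a14ce1_nt.Ch.m6
  have hnp := summable_residueClass_non_primes_div a
  set T := ∑' n : ℕ, (if n.Prime then 0 else residueClass a n) / n with hT
  refine ⟨1 + |C| + y₀ + 4 * C₆ + 2 * T, fun s hs => ?_⟩
  set I := Nat.log 2 s with hI
  have Q1 : (1 : ℝ) ≤ Q := by exact_mod_cast hQ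
  have s1 : (1 : ℝ) ≤ s := by exact_mod_cast hs
  have hsI : (2 : ℝ) ^ I ≤ s := by exact_mod_cast Nat.pow_log_le_self 2 (by omega)
  have hIs : Real.log s ≤ I + 1 := by
    have h1 : (s : ℝ) ≤ 2 ^ (I + 1) := by
      exact_mod_cast (Nat.lt_pow_succ_log_self (by norm_num) s).le
    have h2 := Real.log_le_log (by linarith) h1
    rw [Real.log_pow] at h2
    push_cast at h2
    nlinarith [Real.log_two_lt_d9, (Nat.cast_nonneg I : (0 : ℝ) ≤ I)]
  have hx : ∀ i : ℕ, (1 : ℝ) < 1 + 1 / 2 ^ i ∧ (1 : ℝ) + 1 / 2 ^ i ≤ 2 := fun i => by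
    have h1 : (0 : ℝ) < 1 / 2 ^ i := by positivity
    have h2 : (1 : ℝ) / 2 ^ i ≤ 1 := (div_le_one (by positivity)).2 (one_le_pow₀ one_le_two)
    constructor <;> linarith
  have hs' : ∀ i : ℕ, Summable fun n : ℕ => residueClass a n / (n : ℝ) ^ (1 + 1 / 2 ^ i : ℝ) :=
    fun i => LSeries.summable_real_of_abscissaOfAbsConv_lt <|
      (abscissaOfAbsConv_residueClass_le_one _).trans_lt <| mod_cast (hx i).1
  set S := (Ioc y₀ (2 ^ s)).filter (fun p : ℕ => p.Prime ∧ (Q : ℤ) ∣ p - r) with hS
  have low : (I : ℝ) / Q - 2 * |C| ≤ ∑' n : ℕ, ∑ i ∈ range I,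
      1 / 2 ^ i * (residueClass a n / (n : ℝ) ^ (1 + 1 / 2 ^ i : ℝ)) := by
    rw [Summable.tsum_finsetSum fun i _ => (hs' i).mul_left _]
    have h1 : ∀ i ∈ range I, 1 / (Q : ℝ) - |C| * (1 / 2) ^ i ≤
        ∑' n : ℕ, 1 / 2 ^ i * (residueClass a n / (n : ℝ) ^ (1 + 1 / 2 ^ i : ℝ)) := fun i _ => by
      rw [tsum_mul_left]
      have h2 := mul_le_mul_of_nonneg_left (hC (hx i)) (show (0 : ℝ) ≤ 1 / 2 ^ i by positivity)
      refine le_trans ?_ h2
      have h3 : 1 / (Q : ℝ) ≤ (Q.totient : ℝ)⁻¹ := by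
        rw [← one_div]
        exact one_div_le_one_div_of_le (by exact_mod_cast Nat.totient_pos.2 hQ)
          (by exact_mod_cast Nat.totient_le Q)
      have h4 : 1 / 2 ^ i * ((Q.totient : ℝ)⁻¹ / (1 + 1 / 2 ^ i - 1) - C) =
          (Q.totient : ℝ)⁻¹ - C * (1 / 2) ^ i := by
        rw [add_sub_cancel_left, one_div_pow]; field_simp
      have h5 := mul_le_mul_of_nonneg_right (le_abs_self C)
        (show (0 : ℝ) ≤ (1 / 2) ^ i by positivity)
      rw [h4]; linarith
    refine le_trans ?_ (sum_le_sum h1)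
    rw [sum_sub_distrib, sum_const, card_range, nsmul_eq_mul, ← mul_sum, mul_one_div]
    have := mul_le_mul_of_nonneg_left (sum_geometric_two_le I) (abs_nonneg C)
    linarith
  have pt : ∀ n : ℕ, ∑ i ∈ range I,
      1 / 2 ^ i * (residueClass a n / (n : ℝ) ^ (1 + 1 / 2 ^ i : ℝ)) ≤
      2 * (if n ∈ S then (1 : ℝ) / n else 0) + 2 * (if n ∈ Icc 1 y₀ then (1 : ℝ) else 0) +
        4 / s * (if n ∈ Icc 1 n then vonMangoldt n / (n : ℝ) ^ (1 + 1 / 2 ^ I : ℝ) else 0) +
        4 * ((if n.Prime then 0 else residueClass a n) / n) := by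
    intro n
    have r0 := residueClass_nonneg a n
    have b1 : 0 ≤ (if n ∈ S then (1 : ℝ) / n else 0) := by split_ifs <;> positivity
    have b2 : (0 : ℝ) ≤ (if n ∈ Icc 1 y₀ then (1 : ℝ) else 0) := by split_ifs <;> positivity
    have b3 : 0 ≤ 4 / s * (if n ∈ Icc 1 n then vonMangoldt n / (n : ℝ) ^ (1 + 1 / 2 ^ I : ℝ) else 0) := by
      have := vonMangoldt_nonneg (n := n)
      split_ifs <;> positivity
    have b4 : 0 ≤ (if n.Prime then 0 else residueClass a n) / n :=
      div_nonneg (by split_ifs; exacts [le_rfl, r0]) n.cast_nonneg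
    rcases lt_or_ge n 2 with h | h
    · have : residueClass a n = 0 := le_antisymm ((residueClass_le a n).trans (by
        interval_cases n <;> simp)) r0
      refine le_trans (le_of_eq (sum_eq_zero fun i _ => by rw [this]; simp)) ?_
      linarith
    have n2 : (2 : ℝ) ≤ n := by exact_mod_cast h
    have n0 : (0 : ℝ) < n := by linarith
    have l0 : 1 / 2 ≤ Real.log n := by
      linarith [Real.log_le_log (by norm_num) n2, Real.log_two_gt_d9]
    have e : ∀ i : ℕ, (n : ℝ) ^ (1 + 1 / 2 ^ i : ℝ) = n * Real.exp (Real.log n / 2 ^ i) := fun i => by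
      rw [Real.rpow_add n0, Real.rpow_one, Real.rpow_def_of_pos n0, mul_one_div]
    have k : ∑ i ∈ range I, 1 / 2 ^ i * (residueClass a n / (n : ℝ) ^ (1 + 1 / 2 ^ i : ℝ)) ≤
        residueClass a n / (n * Real.log n) * (2 * Real.exp (-(Real.log n / 2 ^ I))) := by
      refine le_trans (le_of_eq ?_) (mul_le_mul_of_nonneg_left (tele (Real.log n) I) (by positivity))
      rw [mul_sum]
      refine sum_congr rfl fun i _ => ?_
      rw [e, Real.exp_neg]
      field_simp
    have x1 : Real.exp (-(Real.log n / 2 ^ I)) ≤ 1 :=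
      Real.exp_le_one_iff.2 (neg_nonpos.2 (by positivity))
    have k1 := k.trans (mul_le_mul_of_nonneg_left (mul_le_mul_of_nonneg_left x1 zero_le_two)
      (by positivity))
    by_cases hp : n.Prime
    · by_cases hc : (n : ZMod Q) = a
      · have r1 : residueClass a n = Real.log n := by
          simp [residueClass, Set.indicator, hc, vonMangoldt_apply_prime hp]
        have r2 : residueClass a n / (n * Real.log n) * (2 * 1) = 2 * (1 / n) := by
          rw [r1]; field_simp
        rw [r2] at k1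
        rcases le_or_gt n y₀ with h1 | h1
        · rw [if_pos (mem_Icc.2 ⟨by omega, h1⟩)]
          have : (1 : ℝ) / n ≤ 1 := (div_le_one n0).2 (by linarith)
          linarith
        rcases le_or_gt n (2 ^ s) with h2 | h2
        · have : n ∈ S := mem_filter.2 ⟨mem_Ioc.2 ⟨h1, h2⟩, hp, by
            rw [← ZMod.intCast_eq_intCast_iff_dvd_sub]; simpa using hc.symm⟩
          rw [if_pos this]
          linarith
        · rw [if_pos (mem_Icc.2 ⟨by omega, le_rfl⟩), vonMangoldt_apply_prime hp, e]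
          have h3 : (s : ℝ) / 2 ≤ Real.log n := by
            have h4 := Real.log_le_log (by positivity)
              (show ((2 : ℝ) ^ s) ≤ n by exact_mod_cast h2.le)
            rw [Real.log_pow] at h4
            nlinarith [Real.log_two_gt_d9]
          have h5 : residueClass a n / (n * Real.log n) * (2 * Real.exp (-(Real.log n / 2 ^ I))) ≤
              4 / s * (Real.log n / (n * Real.exp (Real.log n / 2 ^ I))) := by
            rw [r1, Real.exp_neg]
            have := Real.exp_pos (Real.log n / 2 ^ I)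
            field_simp
            linarith
          linarith
      · have r1 : residueClass a n = 0 := by simp [residueClass, Set.indicator, hc]
        refine le_trans (le_of_eq (sum_eq_zero fun i _ => by rw [r1]; simp)) ?_
        linarith
    · rw [if_neg hp] at b4 ⊢
      have : residueClass a n / (n * Real.log n) * (2 * 1) ≤ 4 * (residueClass a n / n) := by
        field_simp
        nlinarith
      linarith
  have up := Real.tsum_le_of_sum_range_le (f := fun n : ℕ => ∑ i ∈ range I,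
      1 / 2 ^ i * (residueClass a n / (n : ℝ) ^ (1 + 1 / 2 ^ i : ℝ)))
    (c := 2 * (∑ p ∈ S, (1 : ℝ) / p) + 2 * y₀ + 4 * C₆ + 4 * T)
    (fun n => sum_nonneg fun i _ => by have := residueClass_nonneg a n; positivity) fun N => by
      refine (sum_le_sum fun n _ => pt n).trans ?_
      simp only [sum_add_distrib, ← mul_sum]
      have a1 : ∑ n ∈ range N, (if n ∈ S then (1 : ℝ) / n else 0) ≤ ∑ p ∈ S, (1 : ℝ) / p := by
        rw [sum_ite_mem]
        exact sum_le_sum_of_subset_of_nonneg inter_subset_right fun _ _ _ => by positivity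
      have a2 : ∑ n ∈ range N, (if n ∈ Icc 1 y₀ then (1 : ℝ) else 0) ≤ y₀ := by
        rw [sum_ite_mem, sum_const, nsmul_eq_mul, mul_one]
        exact_mod_cast (card_le_card inter_subset_right).trans (by simp)
      have a3 : ∑ n ∈ range N, (if n ∈ Icc 1 n then vonMangoldt n / (n : ℝ) ^ (1 + 1 / 2 ^ I : ℝ) else 0) ≤
          C₆ * s := by
        rw [← sum_filter]
        refine (sum_le_sum_of_subset_of_nonneg (t := Icc 1 N) (fun n hn => ?_) fun n _ _ => by
          have := vonMangoldt_nonneg (n := n); positivity).trans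
          ((h6 (1 / 2 ^ I) (by positivity) (by linarith [(hx I).2]) N).trans ?_)
        · simp only [mem_filter, mem_range, mem_Icc] at hn ⊢
          omega
        · rw [div_div_eq_mul_div, div_one]
          gcongr
      have a4 := hnp.sum_le_tsum (range N) fun n _ =>
        div_nonneg (by split_ifs; exacts [le_rfl, residueClass_nonneg a n]) n.cast_nonneg
      have a5 := mul_le_mul_of_nonneg_left a3 (show (0 : ℝ) ≤ 4 / s by positivity)
      have a6 : 4 / (s : ℝ) * (C₆ * s) = 4 * C₆ := by field_simp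
      linarith
  have f1 : Real.log s / (2 * Q) ≤ (I : ℝ) / Q / 2 + 1 := by
    rw [div_le_iff₀ (by positivity)]
    have : ((I : ℝ) / Q / 2 + 1) * (2 * Q) = I + 2 * Q := by field_simp
    linarith
  linarith

end Pool.Agent.P.MP_192724_nt.G
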