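import Pool.Agent.P.MP_192724_nt.G.Mer
import Pool.Agent.P.MP_ccd64a_nt.Sieve

/-! The pure sieve for a family of quadratic polynomials. -/

set_option autoImplicit false

namespace Pool.Agent.P.MP_192724_nt.G

open Finset Filter

theorem tail {a : ℝ} {n : ℕ} (h0 : 0 ≤ a) (h : 8 * a ≤ n) :
    a ^ n / n.factorial ≤ Real.exp (-n) := by
  have h1 := Real.pow_div_factorial_le_exp (n : ℝ) n.cast_nonneg n
  have h2 : Real.exp 2 ≤ 8 := by
    have := Real.exp_one_lt_d9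
    rw [show (2 : ℝ) = 1 + 1 by norm_num, Real.exp_add]
    nlinarith [Real.exp_pos 1]
  calc _ ≤ (n / Real.exp 2) ^ n / n.factorial := by
        gcongr
        rw [le_div_iff₀ (Real.exp_pos _)]
        nlinarith
    _ = (n : ℝ) ^ n / n.factorial / Real.exp (n * 2) := by rw [Real.exp_nat_mul, div_pow]; ring
    _ ≤ Real.exp n / Real.exp (n * 2) := by gcongr
    _ = _ := by rw [← Real.exp_sub]; ring_nf

theorem ev_log (a : ℝ) : ∀ᶠ J : ℕ in atTop, a * Real.log J ≤ J := by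
  have h := Real.isLittleO_log_id_atTop.natCast_atTop.const_mul_left a |>.bound one_pos
  filter_upwards [h] with J hJ
  simpa using (le_abs_self _).trans hJ

theorem ev_pow (A : ℕ) : ∀ᶠ s : ℕ in atTop, s ^ A ≤ 2 ^ s := by
  filter_upwards [ev_log (2 * A), eventually_ge_atTop 1] with s h1 h2
  have h3 : (0 : ℝ) < s := by exact_mod_cast h2
  have : (s : ℝ) ^ A ≤ 2 ^ s := by
    rw [← Real.log_le_log_iff (by positivity) (by positivity), Real.log_pow, Real.log_pow]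
    nlinarith [Real.log_two_gt_d9]
  exact_mod_cast this

open Classical in
theorem sift (D m : ℤ) (q J y₀ A : ℕ) (Q : ℕ → ℕ) (r : ℕ → ℤ) (hq : 0 < q) (hy : q + J + 2 ≤ y₀)
    (hQ : ∀ j ∈ Icc 1 J, 0 < Q j ∧ IsCoprime (r j) (Q j))
    (hsq : ∀ j ∈ Icc 1 J, ∀ p : ℕ, p.Prime → y₀ < p → (Q j : ℤ) ∣ p - r j →
      ∃ δ : ℤ, (p : ℤ) ∣ δ ^ 2 - D)
    (hA : (A + 1 : ℝ) ≤ ∑ j ∈ Icc 1 J, 1 / (2 * (Q j : ℝ))) :
    ∀ᶠ s : ℕ in atTop, ∀ X : ℕ, 2 ^ (s ^ 2) ≤ X →
      (#((Ioc 0 X).filter fun U : ℕ => ∀ j ∈ Icc 1 J, ∀ p ∈ Ioc y₀ (2 ^ s), p.Prime →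
        (Q j : ℤ) ∣ p - r j → ¬ (p : ℤ) ∣ (1 + q * j * U) ^ 2 - D * (q * j * m) ^ 2) : ℝ) ≤
        X / s ^ A := by
  have h0 : ∀ p : ℕ, ∃ δ : ℤ, (∃ δ : ℤ, (p : ℤ) ∣ δ ^ 2 - D) → (p : ℤ) ∣ δ ^ 2 - D := fun p => by
    by_cases h : ∃ δ : ℤ, (p : ℤ) ∣ δ ^ 2 - D
    · exact ⟨h.choose, fun _ => h.choose_spec⟩
    · exact ⟨0, fun h' => absurd h' h⟩
  choose δ hδ using h0
  have h1 : ∀ p j : ℕ, ∃ e : ℕ, p.Prime → y₀ < p → j ∈ Icc 1 J →
      e < p ∧ (p : ℤ) ∣ q * j * (e + δ p * m) - 1 := fun p j => by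
    by_cases h : p.Prime ∧ y₀ < p ∧ j ∈ Icc 1 J
    · obtain ⟨a1, a2, a3⟩ := h
      have a4 := mem_Icc.1 a3
      have a5 : IsCoprime (p : ℤ) (q * j) := IsCoprime.mul_right
        (Nat.isCoprime_iff_coprime.2 (Nat.coprime_of_lt_prime (by omega) (by omega) a1))
        (Nat.isCoprime_iff_coprime.2 (Nat.coprime_of_lt_prime (by omega) (by omega) a1))
      obtain ⟨u, v, huv⟩ := a5
      have p0 : (0 : ℤ) < p := by exact_mod_cast a1.pos
      have a6 := Int.emod_nonneg (v - δ p * m) p0.ne'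
      have a7 := Int.emod_lt_of_pos (v - δ p * m) p0
      have a8 := Int.emod_add_mul_ediv (v - δ p * m) p
      refine ⟨((v - δ p * m) % p).toNat, fun _ _ _ => ⟨by omega, -u - q * j * ((v - δ p * m) / p), ?_⟩⟩
      rw [Int.toNat_of_nonneg a6]
      linear_combination huv + q * j * a8
    · exact ⟨0, fun a1 a2 a3 => absurd ⟨a1, a2, a3⟩ h⟩
  choose e he using h1
  choose! C hC using fun j hj => mertens_ap (Q j) (hQ j hj).1 (r j) (hQ j hj).2 y₀
  obtain ⟨C₁, C10, hC1⟩ := MP_a14ce1_nt.Ch.m1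
  let E : ℕ → Finset ℕ := fun p => ((Icc 1 J).filter fun j => (Q j : ℤ) ∣ p - r j).image (e p)
  have hJ : ∀ p, #(E p) ≤ J := fun p =>
    card_image_le.trans ((card_filter_le _ _).trans (by simp))
  filter_upwards [ev_log (128 * J), ev_pow (A + 2), eventually_ge_atTop (J + 8),
    tendsto_natCast_atTop_atTop.eventually_ge_atTop (128 * J * C₁ + 16),
    tendsto_natCast_atTop_atTop.eventually_ge_atTop
      (4 * Real.exp (∑ j ∈ Icc 1 J, C j))] with s s1 s2 s3 s4 s5 X hX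
  set P := (Ioc y₀ (2 ^ s)).filter Nat.Prime with hP
  have hp : ∀ p ∈ P, p.Prime ∧ y₀ < p ∧ p ≤ 2 ^ s := fun p h =>
    ⟨(mem_filter.1 h).2, mem_Ioc.1 (mem_filter.1 h).1⟩
  have sJ : s < 2 ^ s := Nat.lt_two_pow_self
  have sv := MP_ccd64a_nt.sieve P E (fun _ => 1) (fun x => x) (Q := 1) X (s / 8) (T := J)
    (M := 2 ^ (2 * s)) one_pos (fun _ _ _ _ => dvd_rfl) (fun p h => ⟨(hp p h).1, by simp⟩)
    (by positivity) (fun p h => ⟨by exact_mod_cast hJ p, by
      exact_mod_cast (by have := hp p h; omega)⟩) (one_le_pow₀ one_le_two)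
    (by
      have : #P ≤ 2 ^ s := (card_filter_le _ _).trans (by simp)
      rw [two_mul, pow_add]
      exact_mod_cast Nat.mul_le_mul this (by omega))
    (fun p h n => card_le_one.2 fun x hx y hy => by
      obtain ⟨x1, x2⟩ := mem_filter.1 hx
      obtain ⟨y1, y2⟩ := mem_filter.1 hy
      obtain ⟨i, hi, rfl⟩ := mem_image.1 x1
      obtain ⟨j, hj, rfl⟩ := mem_image.1 y1
      rw [one_mul] at x2 y2
      exact (Nat.ModEq.add_left_cancel' n ((Nat.modEq_zero_iff_dvd.2 x2).trans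
        (Nat.modEq_zero_iff_dvd.2 y2).symm)).eq_of_lt_of_lt
        (he p i (hp p h).1 (hp p h).2.1 (mem_filter.1 hi).1).1
        (he p j (hp p h).1 (hp p h).2.1 (mem_filter.1 hj).1).1)
  rw [show Ioc 0 1 = {1} from rfl, sum_singleton] at sv
  set Θ := MP_ccd64a_nt.Th P E (fun _ => 1) (fun x => x) 1 with hΘ
  have t0 : Θ = ∑ p ∈ P, (#(E p) : ℝ) / p := by simp [hΘ, MP_ccd64a_nt.Th]
  have s0 : (1 : ℝ) ≤ s := by exact_mod_cast (by omega)
  have t1 : (A + 1) * Real.log s - ∑ j ∈ Icc 1 J, C j ≤ Θ := by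
    have a1 : Θ = ∑ j ∈ Icc 1 J, ∑ p ∈ (Ioc y₀ (2 ^ s)).filter
        (fun p : ℕ => p.Prime ∧ (Q j : ℤ) ∣ p - r j), (1 : ℝ) / p := by
      simp only [← filter_filter, sum_filter (fun p : ℕ => (Q _ : ℤ) ∣ p - r _)]
      rw [t0, sum_comm]
      refine sum_congr rfl fun p h => ?_
      rw [← sum_filter, sum_const, nsmul_eq_mul, mul_one_div, card_image_of_injOn]
      intro i hi j hj hij
      have i1 := (mem_filter.1 (mem_coe.1 hi)).1
      have j1 := (mem_filter.1 (mem_coe.1 hj)).1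
      obtain ⟨b1, b2, -⟩ := hp p h
      have b3 := (he p i b1 b2 i1).2
      have b4 := (he p j b1 b2 j1).2
      rw [← hij] at b4
      have b5 : (p : ℤ) ∣ q * (i - j) := (dvd_sub (b4.mul_left (q * i)) (b3.mul_left (q * j))).neg_right.trans
        (dvd_of_eq (by ring))
      have b6 : IsCoprime (p : ℤ) q :=
        Nat.isCoprime_iff_coprime.2 (Nat.coprime_of_lt_prime (by omega) (by omega) b1)
      have := Int.eq_zero_of_abs_lt_dvd (b6.dvd_of_dvd_mul_left b5) (by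
        have := mem_Icc.1 i1
        have := mem_Icc.1 j1
        rw [abs_lt]; omega)
      omega
    rw [a1]
    refine le_trans ?_ (sum_le_sum fun j hj => hC j hj s (by omega))
    rw [sum_sub_distrib]
    have := mul_le_mul_of_nonneg_right hA (Real.log_nonneg s0)
    rw [sum_mul] at this
    simp only [one_div_mul_eq_div] at this
    linarith
  have t2 : Θ ≤ J * (Real.log s + C₁) := by
    have a1 := (abs_le.1 (hC1 2 (2 ^ s) le_rfl (le_self_pow₀ one_le_two (by omega)))).2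
    rw [Real.log_pow, mul_div_cancel_right₀ _ (Real.log_pos one_lt_two).ne'] at a1
    have a2 : ∑ p ∈ P, (1 : ℝ) / p ≤ MP_a14ce1_nt.Ch.rs (MP_a14ce1_nt.Ch.pr 2 (2 ^ s)) := by
      refine sum_le_sum_of_subset_of_nonneg (fun p h => mem_filter.2 ⟨mem_Ioc.2 ⟨?_, ?_⟩,
        (hp p h).1⟩) fun _ _ _ => by positivity
      · have := hp p h
        simp only [Nat.floor_ofNat]; omega
      · exact Nat.le_floor (by exact_mod_cast (hp p h).2.2)
    calc Θ ≤ ∑ p ∈ P, J * ((1 : ℝ) / p) := t0 ▸ sum_le_sum fun p _ => by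
          rw [mul_one_div]
          gcongr
          exact_mod_cast hJ p
      _ ≤ _ := by rw [← mul_sum]; gcongr; linarith
  have t3 : 0 ≤ Θ := t0 ▸ sum_nonneg fun p _ => by positivity
  have t4 : 8 * Θ ≤ (2 * (s / 8) + 1 : ℕ) := by
    have : (s : ℝ) ≤ 4 * (2 * (s / 8) + 1 : ℕ) + 4 := by exact_mod_cast (by omega)
    linarith
  have t5 := (tail t3 t4).trans (Real.exp_le_exp.2 (show _ ≤ -Θ by linarith))
  have t6 : Real.exp (-Θ) ≤ 1 / (4 * s ^ A) := by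
    calc _ ≤ Real.exp (∑ j ∈ Icc 1 J, C j - ((A + 1 : ℕ) : ℝ) * Real.log s) :=
          Real.exp_le_exp.2 (by push_cast; linarith)
      _ ≤ _ := by
          rw [Real.exp_sub, Real.exp_nat_mul, Real.exp_log (by linarith),
            div_le_div_iff₀ (by positivity) (by positivity), pow_succ]
          nlinarith [pow_pos (show (0 : ℝ) < s by linarith) A]
  have t7 : (2 * (s / 8 : ℕ) + 1 : ℝ) * (2 ^ (2 * s)) ^ (2 * (s / 8)) ≤ X / (2 * s ^ A) := by
    rw [le_div_iff₀ (by positivity)]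
    have a1 : (2 * (s / 8) + 1) * (2 ^ (2 * s)) ^ (2 * (s / 8)) * (2 * s ^ A) ≤ X := by
      calc _ ≤ s * (2 ^ (2 * s)) ^ (2 * (s / 8)) * (s * s ^ A) := by gcongr <;> omega
        _ = s ^ (A + 2) * 2 ^ (2 * s * (2 * (s / 8))) := by rw [← pow_mul]; ring
        _ ≤ 2 ^ s * 2 ^ (2 * s * (2 * (s / 8))) := by gcongr
        _ ≤ 2 ^ (s ^ 2) := by
          rw [← pow_add]
          refine Nat.pow_le_pow_right two_pos ?_
          have : 8 * (s / 8) ≤ s := Nat.mul_div_le _ _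
          nlinarith
        _ ≤ X := hX
    exact_mod_cast a1
  refine le_trans ?_ (sv.trans ?_)
  · refine Nat.cast_le.2 (card_le_card fun U hU => ?_)
    obtain ⟨a1, a2⟩ := mem_filter.1 hU
    refine mem_filter.2 ⟨a1, fun p h x hx d => ?_⟩
    obtain ⟨j, hj, rfl⟩ := mem_image.1 hx
    obtain ⟨j1, j2⟩ := mem_filter.1 hj
    obtain ⟨b1, b2, -⟩ := hp p h
    refine a2 j j1 p (mem_filter.1 h).1 b1 j2 ?_
    rw [one_mul] at d
    obtain ⟨u, hu⟩ : (p : ℤ) ∣ U + e p j := by exact_mod_cast d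
    obtain ⟨v, hv⟩ := (he p j b1 b2 j1).2
    obtain ⟨w, hw⟩ := hδ p (hsq j j1 p b1 b2 j2)
    exact ⟨(q * j * u - v) * (1 + q * j * U + q * j * δ p * m) + w * (q * j * m) ^ 2, by
      linear_combination (1 + q * j * U + q * j * δ p * m) * (q * j * hu - hv) +
        (q * j * m) ^ 2 * hw⟩
  · have a1 : (X : ℝ) / s ^ A = X * (2 * (1 / (4 * s ^ A))) + X / (2 * s ^ A) := by
      field_simp; ring
    rw [a1, Nat.cast_one, div_one]
    gcongr
    linarith

end Pool.Agent.P.MP_192724_nt.G
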