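import Pool.Agent.P.MP_192724_nt.G.A
import Pool.Agent.P.MP_192724_nt.G.Sv

/-! On a fixed line the sign minus one is rare. -/

set_option autoImplicit false

namespace Pool.Agent.P.MP_192724_nt.G

open Finset Filter

variable {f : ℤ → ℤ} {a b c N₀ σ : ℤ}

theorem sq_of_jac {D : ℤ} {p : ℕ} (hp : p.Prime) (h : jacobiSym D p = 1) :
    ∃ δ : ℤ, (p : ℤ) ∣ δ ^ 2 - D := by
  have := Fact.mk hp
  obtain ⟨r, hr⟩ := ZMod.isSquare_of_jacobiSym_eq_one h
  obtain ⟨r, rfl⟩ := ZMod.intCast_surjective r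
  refine ⟨r, (ZMod.intCast_zmod_eq_zero_iff_dvd _ _).1 ?_⟩
  push_cast
  linear_combination -hr

open Classical in
theorem sparse (hf : CM f) (ha : 0 < a)
    (H : ∀ n, N₀ ≤ n → 0 < a * n ^ 2 + b * n + c ∧ f (a * n ^ 2 + b * n + c) = σ)
    {D m : ℤ} (hD : D = b ^ 2 - 4 * a * c) (hm : 0 < m) (hW : 4 * a * D ∣ m) (A : ℕ) :
    ∀ᶠ s : ℕ in atTop, ∀ X : ℕ, 2 ^ (s ^ 2) ≤ X →
      (#((Ioc 0 X).filter fun U : ℕ => IsCoprime (U : ℤ) m ∧ jacobiSym D U = 1 ∧
        0 < (U : ℤ) ^ 2 - D * m ^ 2 ∧ f ((U : ℤ) ^ 2 - D * m ^ 2) = -1) : ℝ) ≤ X / s ^ A := by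
  obtain ⟨q, hq⟩ := Int.eq_ofNat_of_zero_le (show 0 ≤ 2 * a * m by positivity)
  have q0 : 0 < q := by exact_mod_cast (show (0 : ℤ) < q by rw [← hq]; positivity)
  have q0' : (0 : ℝ) < q := by exact_mod_cast q0
  have h2 : 2 * a ∣ m := (Dvd.intro (2 * D) (by ring)).trans hW
  have h4 : 4 * D ∣ m := (Dvd.intro a (by ring)).trans hW
  have mq : m ∣ q := hq ▸ dvd_mul_left _ _
  obtain ⟨J, hJ⟩ := (Real.tendsto_sum_range_one_div_nat_succ_atTop.eventually_ge_atTop
    ((A + 2) * (2 * q ^ 2))).exists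
  let T := ((range q).filter fun u : ℕ => IsCoprime (u : ℤ) m ∧ jacobiSym D u = 1) ×ˢ
    (Icc 1 J).powerset
  let Q : ℕ × Finset ℕ → ℕ → ℕ := fun x j => if j ∈ x.2 then q ^ 2 * j else q
  let r : ℕ × Finset ℕ → ℕ → ℤ := fun x j =>
    if j ∈ x.2 then 1 + q * j * (x.1 - b * m) else x.1 - b * m
  have key := (eventually_all_finset T).2 fun x hx => sift D m q J (q + J + 2) (A + 1) (Q x) (r x)
    q0 le_rfl (fun j hj => by
      have := mem_Icc.1 hj
      simp only [Q, r]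
      split_ifs
      · refine ⟨Nat.mul_pos (by positivity) this.1, ?_⟩
        have h3 : IsCoprime (1 + q * j * (x.1 - b * m)) (q * j : ℤ) :=
          ⟨1, -(x.1 - b * m), by ring⟩
        push_cast
        exact (h3.mul_right h3).of_isCoprime_of_dvd_right ⟨j, by ring⟩
      · have h3 := (mem_filter.1 (mem_product.1 hx).1).2.1.add_mul_right_left (-b)
        rw [neg_mul, ← sub_eq_add_neg] at h3
        exact ⟨q0, (h3.mul_right h3).of_isCoprime_of_dvd_right (hq ▸ mul_dvd_mul_right h2 m)⟩)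
    (fun j hj p hp h1 h3 => sq_of_jac hp (by
      have ho := hp.odd_of_ne_two (by omega)
      simp only [Q, r] at h3
      split_ifs at h3
      · rw [jac_congr (n' := 1) ho, jacobiSym.one_right]
        obtain ⟨k, hk⟩ := h3
        refine (h4.trans mq).trans ⟨q * j * k + j * (x.1 - b * m), ?_⟩
        push_cast at hk ⊢
        linear_combination hk
      · rw [jac_congr (n' := x.1) ho, (mem_filter.1 (mem_product.1 hx).1).2.2]
        exact (dvd_sub ((h4.trans mq).trans h3) (h4.mul_left b)).trans (dvd_of_eq (by ring))))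
    (by
      rw [← le_div_iff₀ (by positivity), sum_div, range_eq_Ico,
        sum_Ico_add' (fun j : ℕ => 1 / (j : ℝ) / (2 * q ^ 2)) 0 J 1 |>.symm.trans
          (sum_congr rfl fun j _ => by push_cast; rfl) |>.symm] at hJ
      push_cast
      refine le_trans (by linarith) (hJ.trans (sum_le_sum fun j hj => ?_))
      have j1 : 1 ≤ j := by simpa using (mem_Ico.1 hj).1
      have j2 : (1 : ℝ) ≤ j := by exact_mod_cast j1
      have q1 : (1 : ℝ) ≤ q := by exact_mod_cast q0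
      simp only [Q]
      rw [div_div]
      split_ifs
      · exact le_of_eq (by push_cast; ring)
      · exact one_div_le_one_div_of_le (by positivity) (by nlinarith [mul_le_mul j2 q1]))
  obtain ⟨C₀, hC⟩ := Int.eq_ofNat_of_zero_le (abs_nonneg (b * m + q * N₀))
  filter_upwards [key, ev_pow A, eventually_ge_atTop (2 * #T + C₀ + 4)] with s k1 k2 k3 X hX
  have s0 : (0 : ℝ) < s := by exact_mod_cast (by omega)
  have hsub : ((Ioc 0 X).filter fun U : ℕ => IsCoprime (U : ℤ) m ∧ jacobiSym D U = 1 ∧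
      0 < (U : ℤ) ^ 2 - D * m ^ 2 ∧ f ((U : ℤ) ^ 2 - D * m ^ 2) = -1) ⊆
      Ioc 0 (2 ^ s + C₀) ∪ T.biUnion fun x => (Ioc 0 X).filter fun U : ℕ => ∀ j ∈ Icc 1 J,
        ∀ p ∈ Ioc (q + J + 2) (2 ^ s), p.Prime → (Q x j : ℤ) ∣ p - r x j →
          ¬ (p : ℤ) ∣ (1 + q * j * U) ^ 2 - D * (q * j * m) ^ 2 := by
    intro U hU
    obtain ⟨u1, u2, u3, u4, u5⟩ := mem_filter.1 hU
    rcases le_or_gt U (2 ^ s + C₀) with h | h
    · exact mem_union_left _ (mem_Ioc.2 ⟨(mem_Ioc.1 u1).1, h⟩)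
    have e1 : (q : ℤ) ∣ U - (U % q : ℕ) := ⟨(U / q : ℕ), by
      have := Nat.mod_add_div U q
      rw [sub_eq_iff_eq_add']
      exact_mod_cast this.symm⟩
    have ho : Odd U := by
      rw [← Nat.not_even_iff_odd, even_iff_two_dvd]
      intro hc
      have := u2.isUnit_of_dvd' (show (2 : ℤ) ∣ U by exact_mod_cast hc)
        ((dvd_mul_right 2 a).trans h2)
      exact absurd (Int.isUnit_iff.1 this) (by norm_num)
    refine mem_union_right _ (mem_biUnion.2 ⟨(U % q, (Icc 1 J).filter fun j : ℕ =>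
      f ((1 + q * j * U) ^ 2 - D * (q * j * m) ^ 2) = -1), mem_product.2 ⟨mem_filter.2
        ⟨mem_range.2 (Nat.mod_lt _ q0), ?_, ?_⟩, mem_powerset.2 (filter_subset _ _)⟩,
      mem_filter.2 ⟨u1, fun j hj p hp hpp h3 h5 => ?_⟩⟩)
    · obtain ⟨k, hk⟩ := mq.trans e1
      have := u2.add_mul_left_left (-k)
      rwa [show (U : ℤ) + m * -k = (U % q : ℕ) by linarith] at this
    · rw [← jac_congr ho ((h4.trans mq).trans e1), u3]
    have j1 : (1 : ℤ) ≤ j := by exact_mod_cast (mem_Icc.1 hj).1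
    have q1 : (1 : ℤ) ≤ q := by exact_mod_cast q0
    have t1 : (1 : ℤ) ≤ q * j := by nlinarith
    have p0 : (0 : ℤ) < p := by exact_mod_cast hpp.pos
    have p1 : (p : ℤ) ≤ U - b * m - q * N₀ := by
      have : (p : ℤ) + C₀ ≤ U := by exact_mod_cast (by have := mem_Ioc.1 hp; omega)
      linarith [le_abs_self (b * m + q * N₀)]
    have U0 : (0 : ℤ) ≤ U := by positivity
    have G0 : 0 < (1 + q * j * U : ℤ) ^ 2 - D * (q * j * m) ^ 2 := by
      have : (1 + q * j * U : ℤ) ^ 2 - D * (q * j * m) ^ 2 =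
        1 + 2 * (q * j) * U + (q * j) ^ 2 * (U ^ 2 - D * m ^ 2) := by ring
      rw [this]; positivity
    obtain ⟨k, hk⟩ := e1
    obtain ⟨k', hk'⟩ := h3
    simp only [Q, r, mem_filter, hj, true_and] at hk'
    split_ifs at hk' with h6
    · have h7 : IsCoprime (1 + q * j * U : ℤ) (q * j) := ⟨1, -U, by ring⟩
      rw [hD] at h6 G0 h5
      rw [lemA' hf ha H (by positivity) (h2.mul_left _) ((h7.mul_right h7).of_isCoprime_of_dvd_right
        (mul_dvd_mul_left _ (mq.mul_right _))) p0 G0 h5 ⟨k' - k, ?_⟩ ?_] at h6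
      · omega
      · push_cast at hk hk' ⊢
        linear_combination hk' - q * j * hk - q * j * (k' - k) * hq
      · have := mul_le_mul t1 p1 p0.le (by linarith)
        have e : 1 + q * j * U - b * (q * j * m) - 2 * a * (q * j * m) * N₀ =
          1 + q * j * (U - b * m - q * N₀) := by rw [← hq]; ring
        linarith
    · have e : (U + q * j * (U ^ 2 - D * m ^ 2)) ^ 2 - D * m ^ 2 =
        (U ^ 2 - D * m ^ 2) * ((1 + q * j * U) ^ 2 - D * (q * j * m) ^ 2) := by ring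
      have h7 : IsCoprime (U + q * j * (U ^ 2 - D * m ^ 2)) m := by
        obtain ⟨l, hl⟩ := mq
        have := u2.add_mul_left_left (l * j * (U ^ 2 - D * m ^ 2))
        rwa [← mul_assoc, ← mul_assoc, ← hl] at this
      have h8 := lemA' hf ha H hm h2 h7 p0 (by rw [← hD, e]; positivity)
        (by rw [← hD, e]; exact h5.mul_left _)
        (by
          rw [hq]
          exact ⟨k' - k - j * (U ^ 2 - D * m ^ 2), by linear_combination hk' - hk⟩)
        (by
          have : 0 ≤ q * j * (U ^ 2 - D * m ^ 2) := by positivity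
          rw [hq]; linarith)
      rw [← hD, e, hf.mul _ _ u4 G0, u5, (hf.sgn _ G0).resolve_right h6] at h8
      omega
  have c1 := (card_le_card hsub).trans ((card_union_le _ _).trans (Nat.add_le_add_left card_biUnion_le _))
  have c2 := sum_le_card_nsmul _ _ _ fun x hx => k1 x hx X hX
  have c3 : (#T : ℝ) * (X / s ^ (A + 1)) ≤ X / (2 * s ^ A) := by
    have : (2 * #T : ℝ) ≤ s := by exact_mod_cast (by omega)
    rw [← mul_div_assoc, div_le_div_iff₀ (by positivity) (by positivity), pow_succ]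
    nlinarith [mul_le_mul_of_nonneg_left this (show (0 : ℝ) ≤ X * s ^ A by positivity)]
  have c4 : ((2 ^ s + C₀ : ℕ) : ℝ) ≤ X / (2 * s ^ A) := by
    rw [le_div_iff₀ (by positivity)]
    have a1 : s < 2 ^ s := Nat.lt_two_pow_self
    have : (2 ^ s + C₀) * (2 * s ^ A) ≤ X := by
      calc _ ≤ (2 ^ s + 2 ^ s) * (2 * 2 ^ s) := by gcongr; omega
        _ = 2 ^ (2 * s + 2) := by ring
        _ ≤ 2 ^ (s ^ 2) := Nat.pow_le_pow_right two_pos (by nlinarith [show 4 ≤ s by omega])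
        _ ≤ X := hX
    exact_mod_cast this
  rw [Nat.card_Ioc, Nat.sub_zero, ← Nat.cast_le (α := ℝ), Nat.cast_add, Nat.cast_sum] at c1
  rw [nsmul_eq_mul] at c2
  have c5 : (X : ℝ) / s ^ A = X / (2 * s ^ A) + X / (2 * s ^ A) := by field_simp; ring
  linarith

end Pool.Agent.P.MP_192724_nt.G
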