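import Pool.Agent.P.MP_192724_nt.G.Cen
import Pool.Agent.P.MP_192724_nt.G.Sp
import Pool.Agent.P.MP_192724_nt.Lat

/-! A class vector of small slope whose norm is a prime times a square. -/

set_option autoImplicit false

namespace Pool.Agent.P.MP_192724_nt.G

open H3

theorem rel {d : ℤ} (hd : d ≠ 0) (h1 : d ≠ 1) (h2 : ∀ m : ℤ, d ≠ -m ^ 2) {p : ℕ} (hp : p.Prime)
    (a2 : 4 * d ∣ p - 1) : ∃ x y z w : ℤ, z ^ 2 + d * w ^ 2 ≠ 0 ∧
      x ^ 2 + d * y ^ 2 = p * (z ^ 2 + d * w ^ 2) := by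
  have h0 : 0 < d.natAbs := Int.natAbs_pos.2 hd
  have p2 := hp.two_le
  have a1 : 4 * d.natAbs < p := by
    have := Int.le_of_dvd (by omega) ((abs_dvd _ _).2 a2)
    rw [abs_mul, Int.abs_eq_natAbs d, abs_of_pos (show (0 : ℤ) < 4 by norm_num)] at this
    omega
  obtain ⟨r, a3⟩ := sq_of_jac (D := -d) hp (by
    rw [jac_congr (n' := 1) (hp.odd_of_ne_two (by omega)) (by simpa using a2), jacobiSym.one_right])
  rw [sub_neg_eq_add] at a3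
  obtain ⟨x, y, z, b0, b1, b2, b3, b4, b5⟩ := thue p d.natAbs hp.pos h0 r
  have hp' : Prime (p : ℤ) := Nat.prime_iff_prime_int.1 hp
  have p0 : (0 : ℤ) < p := by exact_mod_cast hp.pos
  have c1 : y ^ 2 ≠ p := fun h => hp'.not_isSquare ⟨y, by rw [← h, sq]⟩
  have c0 : ¬ p ∣ d.natAbs := fun h => absurd (Nat.le_of_dvd h0 h) (by omega)
  have c2 : x ^ 2 ≠ p * d.natAbs := by
    intro h
    obtain ⟨k, rfl⟩ := hp'.dvd_of_dvd_pow (show (p : ℤ) ∣ x ^ 2 from ⟨_, h⟩)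
    refine c0 (Int.natCast_dvd_natCast.1 ⟨k ^ 2, mul_left_cancel₀ p0.ne' ?_⟩)
    linear_combination -h
  have c3 : ((d.natAbs : ℕ) : ℤ) ∣ (p : ℤ) - 1 :=
    Int.natAbs_dvd.2 ((dvd_mul_left d 4).trans a2)
  have c4 : ((d.natAbs : ℕ) : ℤ) ∣ d := Int.natAbs_dvd.2 dvd_rfl
  have c5 : (p : ℤ) * d.natAbs ∣ x ^ 2 + d * y ^ 2 - p * z ^ 2 := by
    refine (Nat.isCoprime_iff_coprime.2 ((Nat.Prime.coprime_iff_not_dvd hp).2 c0)).mul_dvd ?_ ?_
    · obtain ⟨u, hu⟩ := b4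
      obtain ⟨v, hv⟩ := a3
      exact ⟨u * (x + r * y) + v * y ^ 2 - z ^ 2, by linear_combination (x + r * y) * hu + y ^ 2 * hv⟩
    · obtain ⟨u, hu⟩ := b5
      obtain ⟨v, hv⟩ := c3
      obtain ⟨w, hw⟩ := c4
      exact ⟨u * (x + z) + w * y ^ 2 - v * z ^ 2, by
        linear_combination (x + z) * hu + y ^ 2 * hw - z ^ 2 * hv⟩
  obtain ⟨k, hk⟩ := c5
  have nsq : ∀ x y : ℤ, x ^ 2 + d * y ^ 2 = 0 → y = 0 := by
    intro x y h
    by_contra hy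
    obtain ⟨m, rfl⟩ := (Int.pow_dvd_pow_iff two_ne_zero).1
      (show y ^ 2 ∣ x ^ 2 from ⟨-d, by linear_combination h⟩)
    exact h2 m (mul_left_cancel₀ (pow_ne_zero 2 hy) (by linear_combination h))
  have zero : x ^ 2 + d * y ^ 2 - p * z ^ 2 = 0 → ∃ x y z w : ℤ,
      z ^ 2 + d * w ^ 2 ≠ 0 ∧ x ^ 2 + d * y ^ 2 = p * (z ^ 2 + d * w ^ 2) := by
    intro h
    refine ⟨x, y, z, 0, fun h3 => ?_, by linear_combination h⟩
    have h4 : z = 0 := by simpa using h3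
    have h5 : y = 0 := nsq x y (by rw [h4] at h; linear_combination h)
    exact b0 ⟨by rw [h4, h5] at h; simpa using h, h5, h4⟩
  have one : x ^ 2 + d * y ^ 2 - p * z ^ 2 = p * d → ∃ x y z w : ℤ,
      z ^ 2 + d * w ^ 2 ≠ 0 ∧ x ^ 2 + d * y ^ 2 = p * (z ^ 2 + d * w ^ 2) := fun h =>
    ⟨x, y, z, 1, fun h3 => one_ne_zero (nsq z 1 h3), by linear_combination h⟩
  have e1 : y ^ 2 < p := lt_of_le_of_ne b2 c1
  have e2 := lt_of_le_of_ne b1 c2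
  have e3 := sq_nonneg x
  have e4 := sq_nonneg y
  have e5 := sq_nonneg z
  rcases lt_or_gt_of_ne hd with hd' | hd'
  · have e : ((d.natAbs : ℕ) : ℤ) = -d := by rw [Int.natCast_natAbs, abs_of_neg hd']
    rw [e] at hk e2 b3
    have q0 : 0 < p * -d := by nlinarith
    have k1 : k < 1 := lt_of_mul_lt_mul_left (a := p * -d) (by nlinarith) q0.le
    have k2 : -2 < k := lt_of_mul_lt_mul_left (a := p * -d) (by nlinarith) q0.le
    rcases (show k = 0 ∨ k = -1 by omega) with rfl | rfl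
    · exact zero (by linear_combination hk)
    · exact one (by linear_combination hk)
  · have e : ((d.natAbs : ℕ) : ℤ) = d := by rw [Int.natCast_natAbs, abs_of_pos hd']
    rw [e] at hk e2 b3 b5
    have q0 : 0 < p * d := by positivity
    have k1 : k < 2 := lt_of_mul_lt_mul_left (a := p * d) (by nlinarith) q0.le
    have k2 : -1 ≤ k := le_of_mul_le_mul_left (a := p * d) (by nlinarith) q0
    rcases (show k = 0 ∨ k = 1 ∨ k = -1 by omega) with rfl | rfl | rfl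
    · exact zero (by linear_combination hk)
    · exact one (by linear_combination hk)
    · exfalso
      have f1 : x ^ 2 = 0 := by nlinarith
      have f2 : z ^ 2 = d := by nlinarith
      obtain ⟨u, hu⟩ := b5
      have f3 : x = 0 := by simpa using f1
      have f4 : d * (d * u ^ 2) = d * 1 := by
        rw [show z = -(d * u) by linarith] at f2
        linear_combination f2
      exact h1 (Int.eq_one_of_mul_eq_one_right hd'.le (mul_left_cancel₀ hd f4))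

theorem conic {D : ℤ} (hD : D ≠ 0) {p : ℕ} (hp : p.Prime) (h : 4 * D ∣ p - 1) :
    ∃ X Y Z : ℤ, 0 ≤ X ∧ 0 < Z ∧ X ^ 2 - D * Y ^ 2 = p * Z ^ 2 := by
  suffices h : ∃ X Y Z : ℤ, Z ≠ 0 ∧ X ^ 2 - D * Y ^ 2 = p * Z ^ 2 by
    obtain ⟨X, Y, Z, h1, h2⟩ := h
    exact ⟨|X|, Y, |Z|, abs_nonneg _, abs_pos.2 h1, by rwa [sq_abs, sq_abs]⟩
  by_cases h1 : -D = 1
  · have := Fact.mk hp
    have h4 := (dvd_mul_right 4 D).trans h
    obtain ⟨x, y, hxy⟩ := Nat.Prime.sq_add_sq (p := p) (by omega)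
    exact ⟨x, y, 1, one_ne_zero, by rw [← hxy, show D = -1 by omega]; push_cast; ring⟩
  by_cases h2 : ∀ m : ℤ, -D ≠ -m ^ 2
  · obtain ⟨x, y, z, w, h3, h4⟩ := rel (neg_ne_zero.2 hD) h1 h2 hp (by simpa using h)
    exact ⟨x * z + D * y * w, x * w + y * z, _, h3, by
      linear_combination (z ^ 2 + -D * w ^ 2) * h4⟩
  · push Not at h2
    obtain ⟨m, hm⟩ := h2
    obtain ⟨k, hk⟩ := h
    rw [neg_inj.1 hm] at hk ⊢
    exact ⟨1 + 2 * m ^ 2 * k, 2 * m * k, 1, one_ne_zero, by linear_combination -hk⟩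

theorem hensel {W p : ℤ} (h : 4 * W ∣ p - 1) (n : ℕ) :
    ∃ s : ℤ, W ∣ s - 1 ∧ 4 * W ^ (n + 1) ∣ s ^ 2 - p := by
  induction n with
  | zero => exact ⟨1, by simp, by simpa using dvd_sub_comm.1 h⟩
  | succ n ih =>
    obtain ⟨s, ⟨k, hk⟩, e, he⟩ := ih
    exact ⟨s - 2 * W ^ (n + 1) * e, ⟨k - 2 * W ^ n * e, by linear_combination hk⟩,
      -k * e + W ^ n * e ^ 2, by linear_combination he - 4 * W ^ (n + 1) * e * hk⟩

theorem split {T W H : ℤ} (T0 : 0 < T) (W0 : 0 < W) (H0 : H ≠ 0)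
    (h : ∀ l : ℤ, l ∣ T → l ∣ W ^ H.natAbs → l ∣ H) :
    ∃ T₁ T₂ ω : ℤ, 0 < T₁ ∧ T = T₁ * T₂ ∧ W ^ H.natAbs = T₁ * ω ∧ IsCoprime T₂ W := by
  obtain ⟨g, T₂, ω, g0, h1, h2, h3⟩ := Int.exists_gcd_one'
    (Int.gcd_pos_of_ne_zero_left (W ^ H.natAbs) T0.ne')
  refine ⟨g, T₂, ω, by exact_mod_cast g0, by rw [h2, mul_comm], by rw [h3, mul_comm], ?_⟩
  refine isCoprime_of_prime_dvd (fun hc => W0.ne' hc.2) fun l hl l1 l2 => ?_
  have l3 : ¬ l ∣ ω := fun hc =>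
    hl.not_unit ((Int.isCoprime_iff_gcd_eq_one.2 h1).isUnit_of_dvd' l1 hc)
  have l4 := pow_dvd_pow_of_dvd l2 H.natAbs
  have l5 : l ^ H.natAbs ∣ T :=
    h2 ▸ (hl.pow_dvd_of_dvd_mul_left _ l3 (h3 ▸ l4)).mul_left _
  have n0 := Int.natAbs_pos.2 H0
  have l6 := Nat.le_of_dvd n0 (Int.natAbs_dvd_natAbs.2 (h _ l5 l4))
  rw [Int.natAbs_pow] at l6
  exact absurd ((Nat.pow_le_pow_left (Int.prime_iff_natAbs_prime.1 hl).two_le _).trans l6)
    (not_le.2 Nat.lt_two_pow_self)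

theorem dvd_of_sq {p g z : ℤ} (hp : Prime p) (g0 : g ≠ 0) (h : g ^ 2 ∣ p * z ^ 2) : g ∣ z := by
  obtain ⟨k, a, b, k0, h1, h2, h3⟩ := Int.exists_gcd_one' (Int.gcd_pos_of_ne_zero_left z g0)
  have k1 : ((k : ℤ) ^ 2) ≠ 0 := by positivity
  rw [h2, h3, mul_pow, mul_pow, ← mul_assoc, mul_dvd_mul_iff_right k1] at h
  have h4 := ((Int.isCoprime_iff_gcd_eq_one.2 h1).pow (m := 2) (n := 2)).dvd_of_dvd_mul_right h
  rw [h2, h3]
  exact mul_dvd_mul_right (hp.squarefree a (by rwa [← sq])).dvd _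

theorem prim {D W : ℤ} (hW : 4 * D ∣ W) {p : ℕ} (hp : p.Prime) {x y z V T : ℤ} (x0 : 0 < x)
    (z0 : 0 < z) (h : x ^ 2 - D * y ^ 2 = p * z ^ 2) (h1 : IsCoprime x W) (h2 : W ∣ x - z)
    (e : ℕ) (hV : V ∣ W ^ e) (h3 : V ∣ y) (h4 : T * |y| ≤ x) : ∃ x y z : ℤ, 0 < x ∧ 0 < z ∧
      x ^ 2 - D * y ^ 2 = p * z ^ 2 ∧ IsCoprime x y ∧ V ∣ y ∧ T * |y| ≤ x ∧
      jacobiSym D x.natAbs = 1 := by
  obtain ⟨g, u, v, g0, a1, a2, a3⟩ := Int.exists_gcd_one' (Int.gcd_pos_of_ne_zero_left y x0.ne')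
  have g1 : (0 : ℤ) < g := by exact_mod_cast g0
  obtain ⟨w, hw⟩ := dvd_of_sq (z := z) (Nat.prime_iff_prime_int.1 hp) g1.ne'
    ⟨u ^ 2 - D * v ^ 2, by rw [← h, a2, a3]; ring⟩
  have u0 : 0 < u := pos_of_mul_pos_left (a2 ▸ x0) g1.le
  have w0 : 0 < w := pos_of_mul_pos_right (hw ▸ z0) g1.le
  have a4 : u ^ 2 - D * v ^ 2 = p * w ^ 2 := mul_left_cancel₀ (pow_ne_zero 2 g1.ne') (by
    rw [a2, a3, hw] at h; linear_combination h)
  have a5 := Int.isCoprime_iff_gcd_eq_one.2 a1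
  have a6 := jac_cW hW x0 z0 h1 h2
  rw [a2] at h1
  have hD := (dvd_mul_left D 4).trans hW
  rw [a2, hw, jac_mul u0 g1, jac_mul g1 w0, jac_dvd (n := w) a5
    (h1.of_mul_left_left.of_isCoprime_of_dvd_right hD) ⟨p * w, by rw [a4]; ring⟩, mul_comm] at a6
  refine ⟨u, v, w, u0, w0, a4, a5, (h1.of_mul_left_right.pow_right.of_isCoprime_of_dvd_right
    hV).symm.dvd_of_dvd_mul_right (a3 ▸ h3), le_of_mul_le_mul_right ?_ g1,
    mul_left_cancel₀ (jacobiSym.ne_zero ?_) a6⟩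
  · rwa [a2, a3, abs_mul, abs_of_pos g1, ← mul_assoc] at h4
  · rw [Int.natAbs_natCast]
    exact Int.isCoprime_iff_gcd_eq_one.1 (h1.of_mul_left_right.of_isCoprime_of_dvd_right hD).symm

theorem exists_mu {f : ℤ → ℤ} {D W K c : ℤ} (hf : CM f) (P : Par D W K c) (hD : D ≠ 0) (K0 : 0 < K)
    {p : ℕ} (hp : p.Prime) (h1 : 4 * W ∣ p - 1) (hfp : f p = -1) (T : ℤ) (T0 : 0 ≤ T) :
    ∃ u v : ℤ, Cl D W (u, 2 * v) ∧ 0 ≤ v ∧ T * v ≤ u ∧ f (QF 0 c (u, 2 * v)) = -1 := by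
  obtain ⟨X, Y, Z, X0, Z0, h⟩ := conic hD hp (P.hW.trans ((dvd_mul_left W 4).trans h1))
  have W0 := P.W0
  have p1 : (1 : ℤ) ≤ p := by exact_mod_cast hp.pos
  have pp := Nat.prime_iff_prime_int.1 hp
  have Y0 : Y ≠ 0 := by
    rintro rfl
    obtain ⟨k, rfl⟩ := (Int.pow_dvd_pow_iff two_ne_zero).1 (show Z ^ 2 ∣ X ^ 2 from ⟨p, by linarith⟩)
    exact pp.not_isSquare ⟨k, mul_left_cancel₀ (pow_ne_zero 2 Z0.ne') (by linarith)⟩
  obtain ⟨e, he⟩ := P.hK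
  set H := 2 * p * D * Y ^ 2 with hH
  have H0 : H ≠ 0 := by positivity
  obtain ⟨s, ⟨k, hk⟩, l, hl⟩ := hensel h1 (H.natAbs + e + 1)
  set M := W ^ (H.natAbs + e + 1 + 1) with hM
  have M0 : 0 < M := by positivity
  have eM : M = W ^ H.natAbs * W ^ (e + 2) := by rw [hM]; ring
  have eM' : M = W * W ^ (H.natAbs + e + 1) := by rw [hM]; ring
  set j := 2 * T * |Y| + 1 with hj
  have j0 : 0 ≤ 2 * T * |Y| := by positivity
  set s₂ := 1 + M * j with hs₂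
  have m1 : M ≤ s₂ := by nlinarith
  obtain ⟨N, hN⟩ := Int.eq_ofNat_of_zero_le (show 0 ≤ p * s₂ ^ 2 by positivity)
  set r : ℤ := (N.sqrt : ℤ) with hr
  have r1 : r ^ 2 ≤ p * s₂ ^ 2 := by rw [hN, hr]; exact_mod_cast Nat.sqrt_le' N
  have r2 : p * s₂ ^ 2 < (r + 1) ^ 2 := by rw [hN, hr]; exact_mod_cast Nat.lt_succ_sqrt' N
  have r0 : 0 ≤ r := by positivity
  have r3 : s₂ ≤ r := by
    have := lt_of_pow_lt_pow_left₀ 2 (by linarith) (show s₂ ^ 2 < (r + 1) ^ 2 by nlinarith)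
    omega
  obtain ⟨s₁, i, t1, t2, t3⟩ : ∃ s₁ i : ℤ, r < s₁ ∧ s₁ ≤ r + M ∧ s₁ = s + M * i :=
    ⟨r + M - (r - s) % M, 1 + (r - s) / M, by linarith [Int.emod_lt_of_pos (r - s) M0],
      by linarith [Int.emod_nonneg (r - s) M0.ne'],
      by linarith [Int.emod_add_mul_ediv (r - s) M]⟩
  obtain ⟨E', hE⟩ : M ∣ s₁ ^ 2 - p * s₂ ^ 2 :=
    ⟨4 * l + i * (2 * s + M * i) - p * j * (2 + M * j), by rw [t3]; linear_combination hl⟩
  have E0 : 0 < s₁ ^ 2 - p * s₂ ^ 2 := by nlinarith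
  have E1 : s₁ ^ 2 - p * s₂ ^ 2 ≤ 3 * M * r := by nlinarith
  have s10 : 0 < s₁ := by linarith
  have s20 : 0 < s₂ := by linarith
  have c2 : IsCoprime s₂ W := ⟨1, -(W ^ (H.natAbs + e + 1) * j), by rw [hs₂, eM']; ring⟩
  obtain ⟨T₁, T₂, ω, a1, a2, a3, a4⟩ := split (T := 2 * (X * s₁ + p * Z * s₂)) (by positivity) W0 H0
    fun d d1 d2 => ((c2.pow (m := 2)).of_isCoprime_of_dvd_right d2).symm.dvd_of_dvd_mul_right
      ((dvd_sub (d1.mul_right (X * s₁ - p * Z * s₂))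
        ((d2.mul_right (W ^ (e + 2) * E')).mul_left (2 * X ^ 2))).trans (dvd_of_eq (by
          rw [← mul_assoc (W ^ _), ← eM, ← hE, hH]
          linear_combination 2 * p * s₂ ^ 2 * h)))
  set E₁ := ω * W ^ (e + 2) * E' with hE₁
  have b1 : s₁ ^ 2 - p * s₂ ^ 2 = T₁ * E₁ := by rw [hE, eM, a3, hE₁]; ring
  have b2 : T₁ * (T₂ * s₁ - E₁ * X) = X * (s₁ ^ 2 + p * s₂ ^ 2) + 2 * p * Z * s₁ * s₂ := by
    linear_combination X * b1 - s₁ * a2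
  have b3 : T₁ * (T₂ * s₂ + E₁ * Z) = Z * (s₁ ^ 2 + p * s₂ ^ 2) + 2 * X * s₁ * s₂ := by
    linear_combination -Z * b1 - s₂ * a2
  have b4 : W ∣ E₁ := ⟨ω * W ^ (e + 1) * E', by rw [hE₁]; ring⟩
  have b5 : W ∣ s₁ - 1 := ⟨k + W ^ (H.natAbs + e + 1) * i, by rw [t3, eM']; linear_combination hk⟩
  have b6 : W ∣ s₂ - 1 := ⟨W ^ (H.natAbs + e + 1) * j, by rw [hs₂, eM']; ring⟩
  obtain ⟨x, y, z, x0, z0, f1, f2, ⟨y', f3⟩, f4, f5⟩ := prim (x := T₂ * s₁ - E₁ * X) (y := E₁ * Y)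
    (z := T₂ * s₂ + E₁ * Z) (T := T) P.hW hp
    (pos_of_mul_pos_right (by rw [b2]; positivity) a1.le)
    (pos_of_mul_pos_right (by rw [b3]; positivity) a1.le)
    (mul_left_cancel₀ (pow_ne_zero 2 a1.ne') (by
      rw [mul_sub, mul_left_comm, mul_left_comm (T₁ ^ 2), ← mul_pow, ← mul_pow, ← mul_pow, b2, b3,
        ← mul_assoc T₁, ← b1]
      linear_combination (s₁ ^ 2 - p * s₂ ^ 2) ^ 2 * h))
    (by
      obtain ⟨u, hu⟩ := dvd_sub (b5.mul_left T₂) (b4.mul_right X)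
      have := a4.add_mul_left_left u
      rwa [← hu, show T₂ + (T₂ * (s₁ - 1) - E₁ * X) = T₂ * s₁ - E₁ * X by ring] at this)
    ((dvd_sub ((dvd_sub b5 b6).mul_left T₂) (b4.mul_right (X + Z))).trans (dvd_of_eq (by ring)))
    (e + 2) (dvd_refl _) ⟨ω * E' * Y, by rw [hE₁]; ring⟩
    (le_of_mul_le_mul_left (by
      rw [b2, mul_left_comm, ← abs_of_pos a1, ← abs_mul, ← mul_assoc T₁, ← b1, abs_mul,
        abs_of_pos E0]
      have g1 := mul_le_mul_of_nonneg_left E1 j0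
      have g2 : r * s₂ ≤ p * Z * s₁ * s₂ :=
        mul_le_mul_of_nonneg_right (by nlinarith [mul_pos (show (0 : ℤ) < p by omega) Z0]) s20.le
      have g3 : 0 ≤ X * (s₁ ^ 2 + p * s₂ ^ 2) := by positivity
      have g4 : r * (M * (2 * T * |Y|)) ≤ r * s₂ := mul_le_mul_of_nonneg_left (by nlinarith) r0
      have g5 : 0 ≤ r * s₂ := by positivity
      linarith) a1)
  obtain ⟨κ, hκ⟩ := he
  obtain ⟨w, hw⟩ : (2 : ℤ) ∣ W := (Dvd.intro (2 * D) (by ring)).trans P.hW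
  have g1 : y = K * (2 * (κ * W * w * y')) := by
    rw [f3, pow_add, hκ]; linear_combination K * κ * W * y' * hw
  set v := κ * W * w * y' with hv
  have g2 : Cl D W (x, 2 * v) := ⟨x0, (g1 ▸ f2).of_mul_right_right, ⟨2 * κ * w * y', by
    rw [hv]; ring⟩, f5⟩
  have g3 : QF 0 c (x, 2 * |v|) = z ^ 2 * p := by
    rw [QF0, P.hc, mul_pow, sq_abs]
    rw [g1] at f1
    linear_combination f1
  refine ⟨x, |v|, ?_, abs_nonneg _, le_trans (mul_le_mul_of_nonneg_left ?_ T0) f4,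
    by rw [g3, hf.sq_mul z0.ne' p1, hfp]⟩
  · rcases abs_choice v with h | h <;> rw [h]
    · exact g2
    · simpa using g2.conj
  · rw [g1, abs_mul K, abs_mul 2 v, abs_of_pos K0, abs_two]
    nlinarith [abs_nonneg v]

end Pool.Agent.P.MP_192724_nt.G
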